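import Pool.Agent.Helper65.LinSpace.Typed

/-!
# Functions which are computed in linear space are bounded by polynomials
-/

namespace Pool.Agent.Helper31.Conv

open Pool.Agent.Helper65.LinSpace

theorem e2_bound {F : (ℕ → ℕ) → ℕ} (hF : E2 F) :
    ∃ k c : ℕ, ∀ (e : ℕ → ℕ) (M : ℕ), (∀ i < k, e i ≤ M) → F e ≤ (M + 2) ^ c := by
  induction hF with
  | var i =>
    refine ⟨i + 1, 1, fun e M h => ?_⟩
    rw [pow_one]
    exact (h i (by omega)).trans (by omega)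
  | zero => exact ⟨0, 0, fun e M _ => Nat.zero_le _⟩
  | succ _ ih =>
    obtain ⟨k, c, h⟩ := ih
    refine ⟨k, c + 1, fun e M hM => ?_⟩
    have h1 := h e M hM
    have h2 : 1 ≤ (M + 2) ^ c := Nat.one_le_pow _ _ (by omega)
    rw [pow_succ]
    nlinarith
  | mul _ _ ih1 ih2 =>
    obtain ⟨k, c, h⟩ := ih1
    obtain ⟨k', c', h'⟩ := ih2
    refine ⟨max k k', c + c', fun e M hM => ?_⟩
    rw [pow_add]
    exact Nat.mul_le_mul (h e M fun i hi => hM i (lt_max_of_lt_left hi))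
      (h' e M fun i hi => hM i (lt_max_of_lt_right hi))
  | @bind F G _ _ ih1 ih2 =>
    obtain ⟨k, c, h⟩ := ih1
    obtain ⟨k', c', h'⟩ := ih2
    refine ⟨max k k', (c + 2) * c', fun e M hM => ?_⟩
    have h1 := h e M fun i hi => hM i (lt_max_of_lt_left hi)
    have h3 : 1 ≤ (M + 2) ^ c := Nat.one_le_pow _ _ (by omega)
    have h4 : 4 * (M + 2) ^ c ≤ (M + 2) ^ (c + 2) := by
      rw [pow_add, mul_comm]
      refine Nat.mul_le_mul_left _ ?_
      calc 4 = 2 ^ 2 := by norm_num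
        _ ≤ (M + 2) ^ 2 := Nat.pow_le_pow_left (by omega) 2
    have h6 : M + 2 ≤ (M + 2) ^ (c + 2) := Nat.le_self_pow (by omega) _
    have h2 := h' (cons (G e) e) ((M + 2) ^ (c + 2) - 2) fun i hi => by
      rcases i with _ | i
      · rw [cons_zero]
        exact h1.trans (by omega)
      · have h5 := hM i (lt_max_of_lt_right (by omega))
        rw [cons_succ]
        omega
    have h5 : 2 ≤ (M + 2) ^ (c + 2) := by omega
    rw [Nat.sub_add_cancel h5, ← pow_mul] at h2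
    exact h2
  | ren σ _ ih =>
    obtain ⟨k, c, h⟩ := ih
    refine ⟨(Finset.range k).sup σ + 1, c, fun e M hM => h _ M fun i hi => hM _ ?_⟩
    exact Nat.lt_succ_iff.2 (Finset.le_sup (f := σ) (Finset.mem_range.2 hi))
  | prec _ _ _ _ hb _ _ _ ih =>
    obtain ⟨k, c, h⟩ := ih
    exact ⟨k, c, fun e M hM => (hb e _ le_rfl).trans (h e M hM)⟩

/-- The logarithms of the values are at most linear. -/
theorem ls_bound {α : Type} [Ctx α] {f : α → ℕ} (hf : LS f) :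
    ∃ c : ℕ, ∀ (a : α) (M : ℕ), (∀ i < Ctx.ar α, Ctx.enc a i ≤ M) → f a ≤ (M + 2) ^ c := by
  rw [LS.nat_iff] at hf
  obtain ⟨F, hF, hF'⟩ := hf
  obtain ⟨k, c, h⟩ := e2_bound hF
  refine ⟨c, fun a M hM => ?_⟩
  rw [← hF']
  refine h _ M fun i _ => ?_
  by_cases hi : i < Ctx.ar α
  · exact hM i hi
  · rw [Ctx.enc_of_le a (by omega)]
    exact Nat.zero_le _

theorem log_le {x M c : ℕ} (h : x ≤ (M + 2) ^ c) : Nat.log 2 x ≤ c * (Nat.log 2 M + 2) := by
  have h1 : M + 2 ≤ 2 ^ (Nat.log 2 M + 2) := by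
    have h2 : M < 2 ^ (Nat.log 2 M + 1) := Nat.lt_pow_succ_log_self (by norm_num) M
    have h3 : 2 ^ (Nat.log 2 M + 2) = 2 * 2 ^ (Nat.log 2 M + 1) := by rw [pow_succ]; ring
    have h4 : 2 ≤ 2 ^ (Nat.log 2 M + 1) := by
      rw [pow_succ]
      have : 0 < 2 ^ Nat.log 2 M := by positivity
      omega
    omega
  calc Nat.log 2 x ≤ Nat.log 2 (2 ^ ((Nat.log 2 M + 2) * c)) := by
        refine Nat.log_mono_right (h.trans ?_)
        rw [pow_mul]
        exact Nat.pow_le_pow_left h1 c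
    _ = (Nat.log 2 M + 2) * c := Nat.log_pow (by norm_num) _
    _ = _ := Nat.mul_comm _ _

theorem log_add_le (x y : ℕ) : Nat.log 2 (x + y) ≤ Nat.log 2 x + Nat.log 2 y + 1 := by
  have h1 : x < 2 ^ (Nat.log 2 x + 1) := Nat.lt_pow_succ_log_self (by norm_num) x
  have h2 : y < 2 ^ (Nat.log 2 y + 1) := Nat.lt_pow_succ_log_self (by norm_num) y
  have h3 : 2 ^ (Nat.log 2 x + 1) ≤ 2 ^ (Nat.log 2 x + Nat.log 2 y + 1) :=
    Nat.pow_le_pow_right (by norm_num) (by omega)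
  have h4 : 2 ^ (Nat.log 2 y + 1) ≤ 2 ^ (Nat.log 2 x + Nat.log 2 y + 1) :=
    Nat.pow_le_pow_right (by norm_num) (by omega)
  rcases Nat.eq_zero_or_pos (x + y) with h0 | h0
  · rw [h0]
    simp
  · refine Nat.lt_succ_iff.1 (Nat.log_lt_of_lt_pow (by omega) ?_)
    have h5 : 2 ^ (Nat.log 2 x + Nat.log 2 y + 1).succ = 2 * 2 ^ (Nat.log 2 x + Nat.log 2 y + 1) := by
      rw [Nat.succ_eq_add_one, pow_succ]
      ring
    omega

theorem ls_log1 {f : ℕ → ℕ} (hf : LS f) : ∃ c : ℕ, ∀ x, Nat.log 2 (f x) ≤ c * (Nat.log 2 x + 1) := by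
  obtain ⟨c, h⟩ := ls_bound hf
  refine ⟨c * 2, fun x => ?_⟩
  have h1 := log_le (h x x fun i hi => by
    change i < 1 at hi
    obtain rfl : i = 0 := by omega
    exact le_rfl)
  nlinarith

theorem ls_log2 {f : ℕ → ℕ → ℕ} (hf : LS (fun z : ℕ × ℕ => f z.1 z.2)) :
    ∃ c : ℕ, ∀ x y, Nat.log 2 (f x y) ≤ c * (Nat.log 2 x + Nat.log 2 y + 1) := by
  obtain ⟨c, h⟩ := ls_bound hf
  refine ⟨c * 3, fun x y => ?_⟩
  have h1 := log_le (h (x, y) (x + y) fun i hi => by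
    change i < 1 + 1 at hi
    rcases (show i = 0 ∨ i = 1 by omega) with rfl | rfl
    · show x ≤ x + y
      omega
    · show y ≤ x + y
      omega)
  have h2 := log_add_le x y
  have h3 : c * (Nat.log 2 (x + y) + 2) ≤ c * (3 * (Nat.log 2 x + Nat.log 2 y + 1)) :=
    Nat.mul_le_mul_left c (by omega)
  refine h1.trans (h3.trans (le_of_eq ?_))
  ring

theorem ls_log3 {f : ℕ → ℕ → ℕ → ℕ} (hf : LS (fun z : ℕ × ℕ × ℕ => f z.1 z.2.1 z.2.2)) :
    ∃ c : ℕ, ∀ x y z, Nat.log 2 (f x y z) ≤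
      c * (Nat.log 2 x + Nat.log 2 y + Nat.log 2 z + 1) := by
  obtain ⟨c, h⟩ := ls_bound hf
  refine ⟨c * 4, fun x y z => ?_⟩
  have h1 := log_le (h (x, y, z) (x + y + z) fun i hi => by
    change i < 1 + (1 + 1) at hi
    rcases (show i = 0 ∨ i = 1 ∨ i = 2 by omega) with rfl | rfl | rfl
    · show x ≤ x + y + z
      omega
    · show y ≤ x + y + z
      omega
    · show z ≤ x + y + z
      omega)
  have h2 := log_add_le (x + y) z
  have h4 := log_add_le x y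
  have h3 : c * (Nat.log 2 (x + y + z) + 2) ≤
      c * (4 * (Nat.log 2 x + Nat.log 2 y + Nat.log 2 z + 1)) := Nat.mul_le_mul_left c (by omega)
  refine h1.trans (h3.trans (le_of_eq ?_))
  ring

end Pool.Agent.Helper31.Conv
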