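import Pool.Agent.Helper81.RP.Dec
import Pool.Agent.Helper31.DLS.Fn
import Pool.Agent.Helper92.KR.Num

/-!
# A word which is computed on numbers, followed by a value of a function
-/

namespace Pool.Agent.Helper31.Conv

open Pool.Agent.Helper65.LinSpace Pool.Agent.Helper78.Mpc
open Pool.Agent.Helper31.DLS (lincomp_letter)
open Pool.Agent.Helper81.RP (wd num_wd wd_num length_wd)
open Pool.Agent.Helper92.KR (l1 rst cd l1_cd rst_cd l1_lt_iff num_inj)

theorem codeO_iff (x : Option Bool) (b : Bool) : codeO x = b.toNat + 1 ↔ x = some b := by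
  rcases x with _ | a
  · simp [codeO]
  · cases a <;> cases b <;> simp [codeO]

/-- The letter number `i`. -/
def letF (F H A S : ℕ → ℕ) (B i y : ℕ) : ℕ :=
  ifz (lt01 i (Nat.log 2 (H y - 1 + 1)))
    (ifz (S y) 0 (F (queryN B (i - Nat.log 2 (H y - 1 + 1)) (A y - 1 + 1))))
    (1 + dig 2 (H y - 1 + 1) i)

/-- A word which is computed on numbers, followed by a value of the function `f`. -/
theorem lincomp_cmb {f : List Bool → List Bool} (hf : LinComp f) {H A S : ℕ → ℕ} (hH : LS H)
    (hA : LS A) (hS : LS S) : LinComp fun u =>
      wd (H (num u) - 1 + 1) ++ if S (num u) = 0 then [] else f (wd (A (num u) - 1 + 1)) := by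
  obtain ⟨F, hF, hlet⟩ := lincomp_letter hf
  intro b
  refine LS.dlinspace (F := fun u => lt01 (l1 u) (Nat.log 2 u) *
    eq01 (letF F H A S u (l1 u) (rst u)) (b.toNat + 1)) ?_ _ ?_
  · have e0 : LS (fun u => rst u) := by fun_prop
    have e1 : LS (fun u => H (rst u)) := LS.comp (g := H) hH e0
    have e2 : LS (fun u => A (rst u)) := LS.comp (g := A) hA e0
    have e3 : LS (fun u => S (rst u)) := LS.comp (g := S) hS e0
    have e4 : LS (fun u => queryN u (l1 u - Nat.log 2 (H (rst u) - 1 + 1))
        (A (rst u) - 1 + 1)) := by fun_prop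
    have e5 : LS (fun u => F (queryN u (l1 u - Nat.log 2 (H (rst u) - 1 + 1))
        (A (rst u) - 1 + 1))) := LS.comp (g := F) hF e4
    have e6 : LS (fun u => letF F H A S u (l1 u) (rst u)) := by
      unfold letF
      exact LS.ifz (LS.lt01 (by fun_prop) (by fun_prop)) (LS.ifz e3 (LS.const 0) e5)
        (LS.add (LS.const 1) (LS.dig (LS.const 2) (by fun_prop) (by fun_prop)))
    exact LS.mul (LS.lt01 (by fun_prop) (by fun_prop)) (LS.eq01 e6 (by fun_prop))
  · intro u
    have hmem : u ∈ {u | ∃ (i : ℕ) (w : List Bool), u = List.replicate i true ++ false :: w ∧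
        (wd (H (num w) - 1 + 1) ++ if S (num w) = 0 then [] else
          f (wd (A (num w) - 1 + 1)))[i]? = some b} ↔ ∃ i w, u = cd i w ∧
        (wd (H (num w) - 1 + 1) ++ if S (num w) = 0 then [] else
          f (wd (A (num w) - 1 + 1)))[i]? = some b :=
      Iff.rfl
    rw [hmem]
    by_cases h : l1 (num u) < u.length
    · obtain ⟨n, d, rfl⟩ := (l1_lt_iff u).1 h
      have e1 : lt01 (l1 (num (cd n d))) (Nat.log 2 (num (cd n d))) = 1 := by
        rw [log_num, lt01, if_pos h]
      have e2 : (∃ i w, cd n d = cd i w ∧ (wd (H (num w) - 1 + 1) ++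
          if S (num w) = 0 then [] else f (wd (A (num w) - 1 + 1)))[i]? = some b) ↔
          (wd (H (num d) - 1 + 1) ++ if S (num d) = 0 then [] else
            f (wd (A (num d) - 1 + 1)))[n]? = some b := by
        constructor
        · rintro ⟨i, w, h1, h2⟩
          have h3 : n = i := by rw [← l1_cd n d, h1, l1_cd]
          have h4 : d = w := num_inj (by rw [← rst_cd n d, h1, rst_cd])
          rw [h3, h4]
          exact h2
        · exact fun h1 => ⟨n, d, rfl, h1⟩
      have hB : 2 ^ (n + 1) ≤ num (cd n d) := by
        have h1 := Nat.pow_log_le_self 2 (num_pos (cd n d)).ne'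
        rw [log_num] at h1
        refine (Nat.pow_le_pow_right (by norm_num) ?_).trans h1
        show n + 1 ≤ (List.replicate n true ++ false :: d).length
        simp
      have key : letF F H A S (num (cd n d)) n (num d) =
          codeO (wd (H (num d) - 1 + 1) ++ if S (num d) = 0 then [] else
            f (wd (A (num d) - 1 + 1)))[n]? := by
        unfold letF
        set P := wd (H (num d) - 1 + 1) with hP
        have hPn : num P = H (num d) - 1 + 1 := num_wd (Nat.succ_pos _)
        have hlog : Nat.log 2 (H (num d) - 1 + 1) = P.length := by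
          rw [← hPn, log_num]
        rw [hlog]
        by_cases hn : n < P.length
        · rw [lt01, if_pos hn, ifz_ne one_ne_zero, ← hPn, dig_num P n hn,
            List.getElem?_append_left hn, List.getElem?_eq_getElem hn]
          rfl
        · rw [lt01, if_neg hn, ifz_zero, List.getElem?_append_right (by omega)]
          by_cases hs : S (num d) = 0
          · rw [if_pos hs, hs, ifz_zero]
            rfl
          · rw [if_neg hs, ifz_ne hs]
            have h1 : A (num d) - 1 + 1 = num (wd (A (num d) - 1 + 1)) :=
              (num_wd (Nat.succ_pos _)).symm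
            have h2 : queryN (num (cd n d)) (n - P.length) (A (num d) - 1 + 1) =
                num (List.replicate (n - P.length) true ++ false :: wd (A (num d) - 1 + 1)) := by
              conv_lhs => rw [h1]
              refine queryN_num ?_ _
              exact (Nat.pow_le_pow_right (by norm_num) (by omega)).trans hB
            rw [h2, hlet]
      rw [e1, one_mul, e2, l1_cd, rst_cd, key, ← codeO_iff]
      generalize codeO (wd (H (num d) - 1 + 1) ++ if S (num d) = 0 then [] else
        f (wd (A (num d) - 1 + 1)))[n]? = q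
      unfold eq01
      by_cases h1 : q = b.toNat + 1
      · rw [if_pos h1]
        exact ⟨fun _ => one_ne_zero, fun _ => h1⟩
      · rw [if_neg h1]
        exact ⟨fun h => absurd h h1, fun h => absurd rfl h⟩
    · have e1 : lt01 (l1 (num u)) (Nat.log 2 (num u)) = 0 := by
        rw [log_num, lt01, if_neg h]
      rw [e1, zero_mul]
      refine ⟨?_, fun h => absurd rfl h⟩
      rintro ⟨i, w, rfl, -⟩
      exact absurd ((l1_lt_iff _).2 ⟨i, w, rfl⟩) h

end Pool.Agent.Helper31.Conv
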