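import Pool.Agent.Helper31.Conv.Cmb
import Pool.Agent.Helper81.RP.Bnd
import Pool.Agent.Helper31.Ink.Goals

/-!
# Other names for the registers of a description: the decompressor
-/

namespace Pool.Agent.Helper31.Conv

open Pool.Agent.Helper65.LinSpace Pool.Agent.Helper78.Mpc Pool.Agent.Helper28.Ram
open Pool.Agent.Helper81.Sus2 (Decomp)
open Pool.Agent.Helper81.RP (wd num_wd wd_num length_wd hd tl ls_hd ls_tl hd_eq tl_eq ls_pair
  length_wd_le pair_lt wd_one)

/-- The number of a state: `q < 32` is its kind. -/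
def ks (q X : ℕ) : ℕ := 128 * X + 4 * q

/-- The kind of a state. -/
def kO (σ : ℕ) : ℕ := σ % 128 / 4

/-- The contents of a state. -/
def xO (σ : ℕ) : ℕ := σ / 128

/-- The name, in the states of the scan. -/
def iO (σ : ℕ) : ℕ := (xO σ - 1).unpair.1

/-- The place, in the states of the scan. -/
def tO (σ : ℕ) : ℕ := (xO σ - 1).unpair.2.unpair.1

/-- The number which was read, in the states of the scan. -/
def aO (σ : ℕ) : ℕ := (xO σ - 1).unpair.2.unpair.2

/-- A state of the scan. -/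
def sc (q i t a : ℕ) : ℕ := ks q (1 + Nat.pair i (Nat.pair t a))

theorem kO_ks {q : ℕ} (hq : q < 32) (X : ℕ) : kO (ks q X) = q := by
  unfold kO ks
  omega

theorem xO_ks {q : ℕ} (hq : q < 32) (X : ℕ) : xO (ks q X) = X := by
  unfold xO ks
  omega

theorem iO_sc {q : ℕ} (hq : q < 32) (i t a : ℕ) : iO (sc q i t a) = i := by
  unfold iO sc
  rw [xO_ks hq, Nat.add_sub_cancel_left, Nat.unpair_pair]

theorem tO_sc {q : ℕ} (hq : q < 32) (i t a : ℕ) : tO (sc q i t a) = t := by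
  unfold tO sc
  rw [xO_ks hq, Nat.add_sub_cancel_left, Nat.unpair_pair, Nat.unpair_pair]

theorem aO_sc {q : ℕ} (hq : q < 32) (i t a : ℕ) : aO (sc q i t a) = a := by
  unfold aO sc
  rw [xO_ks hq, Nat.add_sub_cancel_left, Nat.unpair_pair, Nat.unpair_pair]

theorem ks_mod (q X : ℕ) : ks q X % 4 = 0 := by
  unfold ks
  omega

section

variable {α : Type} [Ctx α]

theorem ls_ks {q X : α → ℕ} (hq : LS q) (hX : LS X) : LS (fun a => ks (q a) (X a)) := by
  unfold ks
  fun_prop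

theorem ls_kO {σ : α → ℕ} (h : LS σ) : LS (fun a => kO (σ a)) := by
  unfold kO
  fun_prop

theorem ls_xO {σ : α → ℕ} (h : LS σ) : LS (fun a => xO (σ a)) := by
  unfold xO
  fun_prop

theorem ls_iO {σ : α → ℕ} (h : LS σ) : LS (fun a => iO (σ a)) := by
  unfold iO
  have := ls_xO h
  fun_prop

theorem ls_tO {σ : α → ℕ} (h : LS σ) : LS (fun a => tO (σ a)) := by
  unfold tO
  have := ls_xO h
  fun_prop

theorem ls_aO {σ : α → ℕ} (h : LS σ) : LS (fun a => aO (σ a)) := by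
  unfold aO
  have := ls_xO h
  fun_prop

theorem ls_sc {q i t a : α → ℕ} (hq : LS q) (hi : LS i) (ht : LS t) (ha : LS a) :
    LS (fun z => sc (q z) (i z) (t z) (a z)) := by
  unfold sc
  have h1 := ls_pair ht ha
  have h2 := ls_pair hi h1
  exact ls_ks hq (by fun_prop)

end

/-- The first state after the header was read. -/
def dec (G : ℕ → ℕ → ℕ) (a i : ℕ) : ℕ :=
  ifz (G a i % 2) (3 + 4 * (G a i / 2 - 1 + 1)) (ks 0 (2 * (G a i / 2 - 1 + 1)))

/-- The first part of the next state; `lw`, `ly`, `lz` are the numbers of the letters. -/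
def nxH (G : ℕ → ℕ → ℕ) (σ lw ly lz : ℕ) : ℕ :=
  ifz (σ % 4) (ifz (kO σ)
      (ifz (xO σ % 2) (ks (1 + 3 * lw + ly) (xO σ))
        (ifz (xO σ - 1) (ks (1 + 3 * lw + ly) (xO σ)) (xO σ)))
      (ifz (lt01 (kO σ) 10)
        (ifz (lt01 (kO σ) 28)
          (ifz (eq01 (kO σ) 28)
            (ifz lz (dec G (aO σ) (iO σ)) (sc 29 (iO σ) (tO σ + 1) (lz - 1 + 2 * aO σ)))
            (ifz (eq01 lz 2) (sc 29 (iO σ) (tO σ) 0) (sc 28 (iO σ) (tO σ + 1) 0)))
          128)
        (ifz (eq01 lz 2) (ks (kO σ + 9) (xO σ)) (ks (kO σ + 18) (xO σ)))))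
    (sc 28 (σ / 2) 0 0)

/-- The argument of the function `next`. -/
def nxA (σ lz : ℕ) : ℕ :=
  catN (sdN (xO σ)) (catN (sdN ((kO σ - 10) % 9 / 3 + 1)) (catN (sdN ((kO σ - 10) % 9 % 3 + 1))
    (ifz ((kO σ - 10) / 9) 1 (lz + 1))))

/-- `1` if the function `next` is used. -/
def nxS (σ : ℕ) : ℕ := ifz (σ % 4) (lt01 9 (kO σ) * lt01 (kO σ) 28) 0

/-- The first part of the address. -/
def adH (σ : ℕ) : ℕ :=
  ifz (σ % 4) (ifz (kO σ) 1 (ifz (lt01 (kO σ) 10) (ifz (lt01 (kO σ) 28)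
    (ifz (eq01 (kO σ) 28) (bitsN (2 * tO σ + 1)) (bitsN (2 * tO σ))) 3) 2)) 1

/-- `1` if the function `addr` is used. -/
def adS (σ : ℕ) : ℕ := ifz (σ % 4)
  (ifz (kO σ) (ifz (xO σ % 2) 1 (ifz (xO σ - 1) 1 0)) (lt01 (kO σ) 28)) 0

theorem ls_dec {G : ℕ → ℕ → ℕ} (hG : LS (fun z : ℕ × ℕ => G z.1 z.2)) {α : Type} [Ctx α]
    {a i : α → ℕ} (ha : LS a) (hi : LS i) : LS (fun z => dec G (a z) (i z)) := by
  have h1 : LS (fun z => G (a z) (i z)) :=
    LS.comp (g := fun z : ℕ × ℕ => G z.1 z.2) (f := fun z => (a z, i z)) hG (by fun_prop)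
  unfold dec
  exact LS.ifz (by fun_prop) (by fun_prop) (ls_ks (LS.const 0) (by fun_prop))

theorem ls_nxH {G : ℕ → ℕ → ℕ} (hG : LS (fun z : ℕ × ℕ => G z.1 z.2)) {α : Type} [Ctx α]
    {σ lw ly lz : α → ℕ} (hσ : LS σ) (hw : LS lw) (hy : LS ly) (hz : LS lz) :
    LS (fun z => nxH G (σ z) (lw z) (ly z) (lz z)) := by
  have hk := ls_kO hσ
  have hx := ls_xO hσ
  have hi := ls_iO hσ
  have ht := ls_tO hσ
  have ha := ls_aO hσ
  have g1 := ls_ks (q := fun z => 1 + 3 * lw z + ly z) (by fun_prop) hx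
  have g2 := ls_dec hG ha hi
  have g3 := ls_sc (LS.const 29) hi (t := fun z => tO (σ z) + 1)
    (a := fun z => lz z - 1 + 2 * aO (σ z)) (by fun_prop) (by fun_prop)
  have g4 := ls_sc (LS.const 29) hi ht (LS.const 0)
  have g5 := ls_sc (LS.const 28) hi (t := fun z => tO (σ z) + 1) (by fun_prop) (LS.const 0)
  have g6 := ls_ks (q := fun z => kO (σ z) + 9) (by fun_prop) hx
  have g7 := ls_ks (q := fun z => kO (σ z) + 18) (by fun_prop) hx
  have g8 := ls_sc (LS.const 28) (i := fun z => σ z / 2) (by fun_prop) (LS.const 0) (LS.const 0)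
  unfold nxH
  exact LS.ifz (by fun_prop) (LS.ifz hk (LS.ifz (by fun_prop) g1 (LS.ifz (by fun_prop) g1 hx))
    (LS.ifz (LS.lt01 hk (LS.const _)) (LS.ifz (LS.lt01 hk (LS.const _))
      (LS.ifz (LS.eq01 hk (LS.const _)) (LS.ifz hz g2 g3)
        (LS.ifz (LS.eq01 hz (LS.const _)) g4 g5)) (LS.const _))
      (LS.ifz (LS.eq01 hz (LS.const _)) g6 g7))) g8

theorem ls_nxA {α : Type} [Ctx α] {σ lz : α → ℕ} (hσ : LS σ) (hz : LS lz) :
    LS (fun z => nxA (σ z) (lz z)) := by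
  have hk := ls_kO hσ
  have hx := ls_xO hσ
  unfold nxA
  fun_prop

theorem ls_nxS {α : Type} [Ctx α] {σ : α → ℕ} (hσ : LS σ) : LS (fun z => nxS (σ z)) := by
  have hk := ls_kO hσ
  unfold nxS
  fun_prop

theorem ls_adH {α : Type} [Ctx α] {σ : α → ℕ} (hσ : LS σ) : LS (fun z => adH (σ z)) := by
  have hk := ls_kO hσ
  have ht := ls_tO hσ
  have h1 : LS (fun z => bitsN (2 * tO (σ z) + 1)) :=
    LS.bitsN (f := fun z => 2 * tO (σ z) + 1) (by fun_prop)
  have h2 : LS (fun z => bitsN (2 * tO (σ z))) :=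
    LS.bitsN (f := fun z => 2 * tO (σ z)) (by fun_prop)
  unfold adH
  fun_prop

theorem ls_adS {α : Type} [Ctx α] {σ : α → ℕ} (hσ : LS σ) : LS (fun z => adS (σ z)) := by
  have hk := ls_kO hσ
  have hx := ls_xO hσ
  unfold adS
  fun_prop

attribute [local irreducible] hd tl

/-- The first part of the next state. -/
def NH (G : ℕ → ℕ → ℕ) (u : ℕ) : ℕ :=
  nxH G (hd u) (hd (tl u) - 1) (hd (tl (tl u)) - 1) (tl (tl (tl u)) - 1)

/-- The argument of the function `next`. -/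
def NA (u : ℕ) : ℕ := nxA (hd u) (tl (tl (tl u)) - 1)

/-- `1` if the function `next` is used. -/
def NS (u : ℕ) : ℕ := nxS (hd u)

theorem ls_NH {G : ℕ → ℕ → ℕ} (hG : LS (fun z : ℕ × ℕ => G z.1 z.2)) : LS (NH G) := by
  have h1 := ls_hd
  have h2 := ls_tl
  have h3 : LS (fun u : ℕ => hd (tl u)) := LS.comp (g := hd) h1 h2
  have h4 : LS (fun u : ℕ => tl (tl u)) := LS.comp (g := tl) h2 h2
  have h5 : LS (fun u : ℕ => hd (tl (tl u))) := LS.comp (g := hd) h1 h4
  have h6 : LS (fun u : ℕ => tl (tl (tl u))) := LS.comp (g := tl) h2 h4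
  have h7 : LS (fun u : ℕ => hd u) := h1
  have e1 : LS (fun u : ℕ => hd (tl u) - 1) := LS.sub h3 (LS.const 1)
  have e2 : LS (fun u : ℕ => hd (tl (tl u)) - 1) := LS.sub h5 (LS.const 1)
  have e3 : LS (fun u : ℕ => tl (tl (tl u)) - 1) := LS.sub h6 (LS.const 1)
  exact ls_nxH hG h7 e1 e2 e3

theorem ls_NA : LS NA := by
  have h2 := ls_tl
  have h4 : LS (fun u : ℕ => tl (tl u)) := LS.comp (g := tl) h2 h2
  have h6 : LS (fun u : ℕ => tl (tl (tl u))) := LS.comp (g := tl) h2 h4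
  have h7 : LS (fun u : ℕ => hd u) := ls_hd
  have e3 : LS (fun u : ℕ => tl (tl (tl u)) - 1) := LS.sub h6 (LS.const 1)
  exact ls_nxA h7 e3

theorem ls_NS : LS NS := by
  have h7 : LS (fun u : ℕ => hd u) := ls_hd
  exact ls_nxS h7

theorem ls_AH : LS adH := by
  have h : LS (fun u : ℕ => u) := LS.id
  exact ls_adH h

theorem ls_AX : LS xO := by
  have h : LS (fun u : ℕ => u) := LS.id
  exact ls_xO h

theorem ls_AS : LS adS := by
  have h : LS (fun u : ℕ => u) := LS.id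
  exact ls_adS h

/-- The function `addr` of the decompressor. -/
noncomputable def cA (E : Decomp) (u : List Bool) : List Bool :=
  wd (adH (num u) - 1 + 1) ++ if adS (num u) = 0 then [] else E.addr (wd (xO (num u) - 1 + 1))

/-- The function `next` of the decompressor. -/
noncomputable def cN (E : Decomp) (G : ℕ → ℕ → ℕ) (u : List Bool) : List Bool :=
  wd (NH G (num u) - 1 + 1) ++ if NS (num u) = 0 then [] else E.next (wd (NA (num u) - 1 + 1))

theorem linComp_cA (E : Decomp) : LinComp (cA E) := lincomp_cmb E.addr_lin ls_AH ls_AX ls_AS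

theorem linComp_cN (E : Decomp) {G : ℕ → ℕ → ℕ} (hG : LS (fun z : ℕ × ℕ => G z.1 z.2)) :
    LinComp (cN E G) := lincomp_cmb E.next_lin (ls_NH hG) ls_NA ls_NS

/-- The decompressor. -/
noncomputable def cdc (E : Decomp) {G : ℕ → ℕ → ℕ} (hG : LS (fun z : ℕ × ℕ => G z.1 z.2)) :
    Decomp := ⟨cA E, cN E G, linComp_cA E, linComp_cN E hG⟩

variable (E : Decomp) {G : ℕ → ℕ → ℕ} (hG : LS (fun z : ℕ × ℕ => G z.1 z.2))

theorem num_toList (x : Option Bool) : num x.toList = codeO x + 1 := by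
  rcases x with _ | b
  · rfl
  · show b.toNat + 2 * 1 = 1 + b.toNat + 1
    omega

/-- The next state. -/
theorem cdc_next (σ : List Bool) (a b z : Option Bool) :
    (cdc E hG).next (sd σ ++ (sd a.toList ++ (sd b.toList ++ z.toList))) =
      wd (nxH G (num σ) (codeO a) (codeO b) (codeO z) - 1 + 1) ++
        if nxS (num σ) = 0 then [] else E.next (wd (nxA (num σ) (codeO z) - 1 + 1)) := by
  show cN E G _ = _
  unfold cN NH NS NA
  simp only [hd_eq, tl_eq, num_toList, Nat.add_sub_cancel]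

theorem cdc_addr (σ : List Bool) : (cdc E hG).addr σ = wd (adH (num σ) - 1 + 1) ++
    if adS (num σ) = 0 then [] else E.addr (wd (xO (num σ) - 1 + 1)) := rfl

end Pool.Agent.Helper31.Conv
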