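import Pool.Agent.Helper81.RP.Dec
import Pool.Agent.Helper81.Sus2.Defs

/-!
# Registers which contain blocks of registers of a description
-/

namespace Pool.Agent.Helper31.Conv

open Pool.Agent.Helper65.LinSpace Pool.Agent.Helper78.Mpc
open Pool.Agent.Helper81.Sus2 (Decomp)
open Pool.Agent.Helper81.RP (wd)

/-- The number `v` is given by the number `g`, directly, or as an answer of the decompressor `E` for
the description `d`, or as a letter of one of the two words. -/
def Digit (E : Decomp) (w y : List Bool) (a : ℕ) (d : List Bool) (g v : ℕ) : Prop :=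
  g = 4 * v ∨ (∃ x, g = 4 * x + 1 ∧ E.Says w y a d (wd x) (wd (v + 1))) ∨
    (∃ x, g = 4 * x + 2 ∧ codeO w[x]? = v) ∨ ∃ x, g = 4 * x + 3 ∧ codeO y[x]? = v

/-- CONVB. From a description `d` and a number `h`, the header, another description `D` is obtained:
the answer for the name `j` is `Φ h (num j) V`, where `V` has in the base `B h (num j)` the digits
number `0, …, N h (num j) - 1` which are given by the numbers `G h (num j) i`. -/
def CONVB : Prop := ∀ (E : Decomp) (N B : ℕ → ℕ → ℕ) (G Φ : ℕ → ℕ → ℕ → ℕ),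
  LS (fun z : ℕ × ℕ => N z.1 z.2) → LS (fun z : ℕ × ℕ => B z.1 z.2) →
    LS (fun z : ℕ × ℕ × ℕ => G z.1 z.2.1 z.2.2) → LS (fun z : ℕ × ℕ × ℕ => Φ z.1 z.2.1 z.2.2) →
    ∃ (E' : Decomp) (K : ℕ), ∀ (w y d : List Bool) (h a s W : ℕ), ∃ D : List Bool,
      D.length ≤ 2 * d.length + K * (Nat.log 2 h + 1) ∧
      ∀ (j : List Bool) (v : ℕ → ℕ), j.length ≤ s → j.head? ≠ some false →
        B h (num j) ^ N h (num j) ≤ 2 ^ W →
        (∀ i < N h (num j), v i < B h (num j) ∧ Digit E w y a d (G h (num j) i) (v i)) →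
        E'.Says w y (a + K * (Nat.log 2 h + s + Nat.log 2 (d.length + 1) + W + 1)) D j
          (wd (Φ h (num j) (∑ i ∈ Finset.range (N h (num j)), v i * B h (num j) ^ i)))

end Pool.Agent.Helper31.Conv
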