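import Pool.Agent.Helper31.Conv.Run
import Pool.Agent.Helper31.Conv.GoalsB

/-!
# Registers which contain blocks of registers of a description: the decompressor
-/

namespace Pool.Agent.Helper31.Conv

open Pool.Agent.Helper65.LinSpace Pool.Agent.Helper78.Mpc Pool.Agent.Helper28.Ram
open Pool.Agent.Helper81.Sus2 (Decomp)
open Pool.Agent.Helper81.RP (wd num_wd wd_num length_wd hd tl ls_hd ls_tl hd_eq tl_eq ls_pair
  length_wd_le pair_lt wd_one)

/-- The functions which describe the blocks. -/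
structure Blk where
  N : ℕ → ℕ → ℕ
  B : ℕ → ℕ → ℕ
  G : ℕ → ℕ → ℕ → ℕ
  Φ : ℕ → ℕ → ℕ → ℕ
  lN : LS (fun z : ℕ × ℕ => N z.1 z.2)
  lB : LS (fun z : ℕ × ℕ => B z.1 z.2)
  lG : LS (fun z : ℕ × ℕ × ℕ => G z.1 z.2.1 z.2.2)
  lΦ : LS (fun z : ℕ × ℕ × ℕ => Φ z.1 z.2.1 z.2.2)

/-- The context: the header, the name, the number of the digits which are still missing, and the
number given by the other digits. -/
def ctx (h x i V : ℕ) : ℕ := 1 + Nat.pair (Nat.pair h x) (Nat.pair i V)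

/-- The header. -/
def cH (c : ℕ) : ℕ := (c - 1).unpair.1.unpair.1

/-- The name. -/
def cX (c : ℕ) : ℕ := (c - 1).unpair.1.unpair.2

/-- The number of missing digits. -/
def cI (c : ℕ) : ℕ := (c - 1).unpair.2.unpair.1

/-- The number given by the other digits. -/
def cV (c : ℕ) : ℕ := (c - 1).unpair.2.unpair.2

theorem cH_ctx (h x i V : ℕ) : cH (ctx h x i V) = h := by
  unfold cH ctx
  rw [Nat.add_sub_cancel_left, Nat.unpair_pair, Nat.unpair_pair]

theorem cX_ctx (h x i V : ℕ) : cX (ctx h x i V) = x := by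
  unfold cX ctx
  rw [Nat.add_sub_cancel_left, Nat.unpair_pair, Nat.unpair_pair]

theorem cI_ctx (h x i V : ℕ) : cI (ctx h x i V) = i := by
  unfold cI ctx
  rw [Nat.add_sub_cancel_left, Nat.unpair_pair, Nat.unpair_pair]

theorem cV_ctx (h x i V : ℕ) : cV (ctx h x i V) = V := by
  unfold cV ctx
  rw [Nat.add_sub_cancel_left, Nat.unpair_pair, Nat.unpair_pair]

theorem ctx_pos (h x i V : ℕ) : 0 < ctx h x i V := by
  unfold ctx
  omega

variable (P : Blk)

/-- The number which describes the next digit. -/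
def gO (c : ℕ) : ℕ := P.G (cH c) (cX c) (cI c - 1)

/-- The state after the next digit `v` is known. -/
def put (c v : ℕ) : ℕ := ks 30 (ctx (cH c) (cX c) (cI c - 1) (v + P.B (cH c) (cX c) * cV c))

/-- The next state, if all digits are known or the next digit is looked for. -/
def lpH (c lw ly : ℕ) : ℕ :=
  ifz (cI c) (3 + 4 * (P.Φ (cH c) (cX c) (cV c) - 1 + 1))
    (ifz (gO P c % 4) (put P c (gO P c / 4))
      (ifz (gO P c % 4 - 1) (ks 0 (catN (sdN c) (2 * (gO P c / 4 - 1 + 1))))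
        (ifz (gO P c % 4 - 2) (put P c lw) (put P c ly))))

/-- The first part of the next state; `lw`, `ly`, `lz` are the numbers of the letters. -/
def bnH (σ lw ly lz : ℕ) : ℕ :=
  ifz (σ % 4) (ifz (kO σ)
      (ifz (tl (xO σ) % 2) (ks (1 + 3 * lw + ly) (xO σ))
        (ifz (tl (xO σ) - 1) (ks (1 + 3 * lw + ly) (xO σ))
          (put P (hd (xO σ)) (tl (xO σ) / 4 - 1))))
      (ifz (lt01 (kO σ) 10)
        (ifz (lt01 (kO σ) 28)
          (ifz (eq01 (kO σ) 28)
            (ifz (eq01 (kO σ) 29) (lpH P (xO σ) lw ly)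
              (ifz lz (ks 30 (ctx (aO σ) (iO σ) (P.N (aO σ) (iO σ)) 0))
                (sc 29 (iO σ) (tO σ + 1) (lz - 1 + 2 * aO σ))))
            (ifz (eq01 lz 2) (sc 29 (iO σ) (tO σ) 0) (sc 28 (iO σ) (tO σ + 1) 0)))
          (catN 128 (sdN (hd (xO σ)))))
        (ifz (eq01 lz 2) (ks (kO σ + 9) (xO σ)) (ks (kO σ + 18) (xO σ)))))
    (sc 28 (σ / 2) 0 0)

/-- The argument of the function `next`. -/
def bnA (σ lz : ℕ) : ℕ :=
  catN (sdN (tl (xO σ))) (catN (sdN ((kO σ - 10) % 9 / 3 + 1)) (catN (sdN ((kO σ - 10) % 9 % 3 + 1))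
    (ifz ((kO σ - 10) / 9) 1 (lz + 1))))

/-- The first part of the address. -/
def baH (σ : ℕ) : ℕ :=
  ifz (σ % 4) (ifz (kO σ) 1 (ifz (lt01 (kO σ) 10) (ifz (lt01 (kO σ) 28)
    (ifz (eq01 (kO σ) 28) (ifz (eq01 (kO σ) 29) (bitsN (gO P (xO σ) / 4)) (bitsN (2 * tO σ + 1)))
      (bitsN (2 * tO σ))) 3) 2)) 1

/-- `1` if the function `addr` is used. -/
def baS (σ : ℕ) : ℕ := ifz (σ % 4)
  (ifz (kO σ) (ifz (tl (xO σ) % 2) 1 (ifz (tl (xO σ) - 1) 1 0)) (lt01 (kO σ) 28)) 0

/-- The argument of the function `addr`. -/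
def baX (σ : ℕ) : ℕ := tl (xO σ)

section

variable {α : Type} [Ctx α]

theorem ls_cH {c : α → ℕ} (h : LS c) : LS (fun a => cH (c a)) := by
  unfold cH
  fun_prop

theorem ls_cX {c : α → ℕ} (h : LS c) : LS (fun a => cX (c a)) := by
  unfold cX
  fun_prop

theorem ls_cI {c : α → ℕ} (h : LS c) : LS (fun a => cI (c a)) := by
  unfold cI
  fun_prop

theorem ls_cV {c : α → ℕ} (h : LS c) : LS (fun a => cV (c a)) := by
  unfold cV
  fun_prop

theorem ls_ctx {h x i V : α → ℕ} (hh : LS h) (hx : LS x) (hi : LS i) (hV : LS V) :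
    LS (fun a => ctx (h a) (x a) (i a) (V a)) := by
  unfold ctx
  have h1 := ls_pair hh hx
  have h2 := ls_pair hi hV
  have h3 := ls_pair h1 h2
  fun_prop

theorem ls_tlx {σ : α → ℕ} (hσ : LS σ) : LS (fun a => tl (xO (σ a))) :=
  LS.comp (g := tl) ls_tl (ls_xO hσ)

theorem ls_hdx {σ : α → ℕ} (hσ : LS σ) : LS (fun a => hd (xO (σ a))) :=
  LS.comp (g := hd) ls_hd (ls_xO hσ)

theorem ls_gO {c : α → ℕ} (hc : LS c) : LS (fun a => gO P (c a)) := by
  have h1 := ls_cH hc
  have h2 := ls_cX hc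
  have h3 := ls_cI hc
  unfold gO
  exact LS.comp (g := fun z : ℕ × ℕ × ℕ => P.G z.1 z.2.1 z.2.2)
    (f := fun a => (cH (c a), cX (c a), cI (c a) - 1)) P.lG (by fun_prop)

theorem ls_put {c v : α → ℕ} (hc : LS c) (hv : LS v) : LS (fun a => put P (c a) (v a)) := by
  have h1 := ls_cH hc
  have h2 := ls_cX hc
  have h3 := ls_cI hc
  have h4 := ls_cV hc
  have h5 : LS (fun a => P.B (cH (c a)) (cX (c a))) :=
    LS.comp (g := fun z : ℕ × ℕ => P.B z.1 z.2) (f := fun a => (cH (c a), cX (c a))) P.lB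
      (by fun_prop)
  unfold put
  exact ls_ks (LS.const 30) (ls_ctx h1 h2 (by fun_prop) (by fun_prop))

theorem ls_lpH {c lw ly : α → ℕ} (hc : LS c) (hw : LS lw) (hy : LS ly) :
    LS (fun a => lpH P (c a) (lw a) (ly a)) := by
  have h1 := ls_cH hc
  have h2 := ls_cX hc
  have h3 := ls_cI hc
  have h4 := ls_cV hc
  have h5 : LS (fun a => P.Φ (cH (c a)) (cX (c a)) (cV (c a))) :=
    LS.comp (g := fun z : ℕ × ℕ × ℕ => P.Φ z.1 z.2.1 z.2.2)
      (f := fun a => (cH (c a), cX (c a), cV (c a))) P.lΦ (by fun_prop)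
  have h6 := ls_gO P hc
  have e1 := ls_put P hc (v := fun a => gO P (c a) / 4) (by fun_prop)
  have e2 := ls_put P hc hw
  have e3 := ls_put P hc hy
  have e4 : LS (fun a => ks 0 (catN (sdN (c a)) (2 * (gO P (c a) / 4 - 1 + 1)))) :=
    ls_ks (LS.const 0) (by fun_prop)
  unfold lpH
  exact LS.ifz h3 (by fun_prop) (LS.ifz (by fun_prop) e1 (LS.ifz (by fun_prop) e4
    (LS.ifz (by fun_prop) e2 e3)))

theorem ls_bnH {σ lw ly lz : α → ℕ} (hσ : LS σ) (hw : LS lw) (hy : LS ly) (hz : LS lz) :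
    LS (fun z => bnH P (σ z) (lw z) (ly z) (lz z)) := by
  have hk := ls_kO hσ
  have hx := ls_xO hσ
  have hi := ls_iO hσ
  have ht := ls_tO hσ
  have ha := ls_aO hσ
  have hT := ls_tlx hσ
  have hH := ls_hdx hσ
  have g1 := ls_ks (q := fun z => 1 + 3 * lw z + ly z) (by fun_prop) hx
  have g2 := ls_lpH P hx hw hy
  have g3 := ls_sc (LS.const 29) hi (t := fun z => tO (σ z) + 1)
    (a := fun z => lz z - 1 + 2 * aO (σ z)) (by fun_prop) (by fun_prop)
  have g4 := ls_sc (LS.const 29) hi ht (LS.const 0)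
  have g5 := ls_sc (LS.const 28) hi (t := fun z => tO (σ z) + 1) (by fun_prop) (LS.const 0)
  have g6 := ls_ks (q := fun z => kO (σ z) + 9) (by fun_prop) hx
  have g7 := ls_ks (q := fun z => kO (σ z) + 18) (by fun_prop) hx
  have g8 := ls_sc (LS.const 28) (i := fun z => σ z / 2) (by fun_prop) (LS.const 0) (LS.const 0)
  have g9 := ls_put P hH (v := fun z => tl (xO (σ z)) / 4 - 1) (by fun_prop)
  have g10 : LS (fun z => P.N (aO (σ z)) (iO (σ z))) :=
    LS.comp (g := fun z : ℕ × ℕ => P.N z.1 z.2) (f := fun z => (aO (σ z), iO (σ z))) P.lN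
      (by fun_prop)
  have g11 := ls_ks (LS.const 30) (ls_ctx ha hi g10 (LS.const 0))
  have g12 : LS (fun z => catN 128 (sdN (hd (xO (σ z))))) := by fun_prop
  unfold bnH
  exact LS.ifz (by fun_prop) (LS.ifz hk (LS.ifz (by fun_prop) g1 (LS.ifz (by fun_prop) g1 g9))
    (LS.ifz (LS.lt01 hk (LS.const _)) (LS.ifz (LS.lt01 hk (LS.const _))
      (LS.ifz (LS.eq01 hk (LS.const _)) (LS.ifz (LS.eq01 hk (LS.const _)) g2 (LS.ifz hz g11 g3))
        (LS.ifz (LS.eq01 hz (LS.const _)) g4 g5)) g12)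
      (LS.ifz (LS.eq01 hz (LS.const _)) g6 g7))) g8

theorem ls_bnA {σ lz : α → ℕ} (hσ : LS σ) (hz : LS lz) : LS (fun z => bnA (σ z) (lz z)) := by
  have hk := ls_kO hσ
  have hT := ls_tlx hσ
  unfold bnA
  fun_prop

theorem ls_baH {σ : α → ℕ} (hσ : LS σ) : LS (fun z => baH P (σ z)) := by
  have hk := ls_kO hσ
  have ht := ls_tO hσ
  have h1 : LS (fun z => bitsN (2 * tO (σ z) + 1)) :=
    LS.bitsN (f := fun z => 2 * tO (σ z) + 1) (by fun_prop)
  have h2 : LS (fun z => bitsN (2 * tO (σ z))) :=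
    LS.bitsN (f := fun z => 2 * tO (σ z)) (by fun_prop)
  have h4 := ls_gO P (ls_xO hσ)
  have h3 : LS (fun z => bitsN (gO P (xO (σ z)) / 4)) :=
    LS.bitsN (f := fun z => gO P (xO (σ z)) / 4) (by fun_prop)
  unfold baH
  fun_prop

theorem ls_baS {σ : α → ℕ} (hσ : LS σ) : LS (fun z => baS (σ z)) := by
  have hk := ls_kO hσ
  have hT := ls_tlx hσ
  unfold baS
  fun_prop

end

attribute [local irreducible] hd tl

/-- The first part of the next state. -/
def BNH (u : ℕ) : ℕ :=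
  bnH P (hd u) (hd (tl u) - 1) (hd (tl (tl u)) - 1) (tl (tl (tl u)) - 1)

/-- The argument of the function `next`. -/
def BNA (u : ℕ) : ℕ := bnA (hd u) (tl (tl (tl u)) - 1)

theorem ls_BNH : LS (BNH P) := by
  have h1 := ls_hd
  have h2 := ls_tl
  have h3 : LS (fun u : ℕ => hd (tl u)) := LS.comp (g := hd) h1 h2
  have h4 : LS (fun u : ℕ => tl (tl u)) := LS.comp (g := tl) h2 h2
  have h5 : LS (fun u : ℕ => hd (tl (tl u))) := LS.comp (g := hd) h1 h4
  have h6 : LS (fun u : ℕ => tl (tl (tl u))) := LS.comp (g := tl) h2 h4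
  have h7 : LS (fun u : ℕ => hd u) := h1
  have e1 : LS (fun u : ℕ => hd (tl u) - 1) := LS.sub h3 (LS.const 1)
  have e2 : LS (fun u : ℕ => hd (tl (tl u)) - 1) := LS.sub h5 (LS.const 1)
  have e3 : LS (fun u : ℕ => tl (tl (tl u)) - 1) := LS.sub h6 (LS.const 1)
  exact ls_bnH P h7 e1 e2 e3

theorem ls_BNA : LS BNA := by
  have h2 := ls_tl
  have h4 : LS (fun u : ℕ => tl (tl u)) := LS.comp (g := tl) h2 h2
  have h6 : LS (fun u : ℕ => tl (tl (tl u))) := LS.comp (g := tl) h2 h4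
  have h7 : LS (fun u : ℕ => hd u) := ls_hd
  have e3 : LS (fun u : ℕ => tl (tl (tl u)) - 1) := LS.sub h6 (LS.const 1)
  exact ls_bnA h7 e3

theorem ls_BAH : LS (baH P) := by
  have h : LS (fun u : ℕ => u) := LS.id
  exact ls_baH P h

theorem ls_BAX : LS baX := by
  have h : LS (fun u : ℕ => u) := LS.id
  exact ls_tlx h

theorem ls_BAS : LS baS := by
  have h : LS (fun u : ℕ => u) := LS.id
  exact ls_baS h

/-- The function `addr` of the decompressor. -/
noncomputable def bA (E : Decomp) (u : List Bool) : List Bool :=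
  wd (baH P (num u) - 1 + 1) ++ if baS (num u) = 0 then [] else E.addr (wd (baX (num u) - 1 + 1))

/-- The function `next` of the decompressor. -/
noncomputable def bN (E : Decomp) (u : List Bool) : List Bool :=
  wd (BNH P (num u) - 1 + 1) ++ if NS (num u) = 0 then [] else E.next (wd (BNA (num u) - 1 + 1))

theorem linComp_bA (E : Decomp) : LinComp (bA P E) := lincomp_cmb E.addr_lin (ls_BAH P) ls_BAX ls_BAS

theorem linComp_bN (E : Decomp) : LinComp (bN P E) := lincomp_cmb E.next_lin (ls_BNH P) ls_BNA ls_NS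

/-- The decompressor. -/
noncomputable def bdc (E : Decomp) : Decomp := ⟨bA P E, bN P E, linComp_bA P E, linComp_bN P E⟩

variable (E : Decomp)

/-- The next state. -/
theorem bdc_next (σ : List Bool) (a b z : Option Bool) :
    (bdc P E).next (sd σ ++ (sd a.toList ++ (sd b.toList ++ z.toList))) =
      wd (bnH P (num σ) (codeO a) (codeO b) (codeO z) - 1 + 1) ++
        if nxS (num σ) = 0 then [] else E.next (wd (bnA (num σ) (codeO z) - 1 + 1)) := by
  show bN P E _ = _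
  unfold bN BNH NS BNA
  simp only [hd_eq, tl_eq, num_toList, Nat.add_sub_cancel]

theorem bdc_addr (σ : List Bool) : (bdc P E).addr σ = wd (baH P (num σ) - 1 + 1) ++
    if baS (num σ) = 0 then [] else E.addr (wd (tl (xO (num σ)) - 1 + 1)) := rfl

end Pool.Agent.Helper31.Conv
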