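import Pool.Agent.Helper31.Conv.Run

/-!
# Other names for the registers of a description: the bounds
-/

namespace Pool.Agent.Helper31.Conv

open Pool.Agent.Helper65.LinSpace Pool.Agent.Helper78.Mpc Pool.Agent.Helper28.Ram
open Pool.Agent.Helper81.Sus2 (Decomp)
open Pool.Agent.Helper81.RP (wd num_wd wd_num length_wd head_wd wd_one length_wd_le pair_lt
  wd_cons_true wd_cons_false)
open Pool.Agent.Helper31.TMS (bval_bits)

theorem vl_lt (l : List Bool) : vl l < 2 ^ l.length := by
  induction l using List.reverseRecOn with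
  | nil => exact Nat.one_pos
  | append_singleton l b ih =>
    rw [vl_append, List.length_append, List.length_singleton, pow_succ]
    have := toNat_le_one b
    omega

theorem bits_length_le {n k : ℕ} (h : n < 2 ^ k) : n.bits.length ≤ k := by
  rw [Nat.size_eq_bits_len]
  exact Nat.size_le.2 h

theorem lt_two_pow_log (n : ℕ) : n < 2 ^ (Nat.log 2 n + 1) :=
  Nat.lt_pow_succ_log_self (by norm_num) n

theorem num_lt (w : List Bool) : num w < 2 ^ (w.length + 1) := by
  rw [← log_num]
  exact lt_two_pow_log _

theorem wd_zero : wd 0 = [] := by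
  unfold wd
  rw [dif_neg (lt_irrefl 0)]

theorem wd_pred' (m : ℕ) : wd (m - 1 + 1) = wd m := by
  rcases Nat.eq_zero_or_pos m with h | h
  · rw [h, wd_zero, Nat.zero_sub, zero_add, wd_one]
  · rw [Nat.sub_add_cancel h]

theorem length_wd_le' (m : ℕ) : (wd m).length ≤ Nat.log 2 m := by
  rcases Nat.eq_zero_or_pos m with h | h
  · rw [h, wd_zero]
    exact Nat.zero_le _
  · rw [length_wd h]

theorem length_ks {q X k : ℕ} (hq : q < 32) (h0 : 0 < X) (hX : X < 2 ^ k) :
    (wd (ks q X)).length ≤ k + 6 := by
  refine length_wd_le (ks_pos h0) ?_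
  have h1 : 2 ^ (k + 6 + 1) = 128 * 2 ^ k := by
    rw [show k + 6 + 1 = k + 7 by ring, pow_add]
    ring
  unfold ks
  omega

theorem length_ks_num {q : ℕ} (hq : q < 32) (ε : List Bool) :
    (wd (ks q (num ε))).length ≤ ε.length + 7 := by
  have h := length_ks hq (num_pos ε) (num_lt ε)
  omega

theorem length_sc {q i t a e : ℕ} (hq : q < 32) (hi : i < 2 ^ e) (ht : t < 2 ^ e)
    (ha : a < 2 ^ e) : (wd (sc q i t a)).length ≤ 4 * e + 7 := by
  have h1 := pair_lt ht ha
  have h2 : i < 2 ^ (2 * e) := hi.trans_le (Nat.pow_le_pow_right (by norm_num) (by omega))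
  have h3 := pair_lt h2 h1
  have h4 : 1 + Nat.pair i (Nat.pair t a) < 2 ^ (4 * e + 1) := by
    have h5 : 2 ^ (4 * e + 1) = 2 * 2 ^ (2 * (2 * e)) := by
      rw [show 4 * e + 1 = 2 * (2 * e) + 1 by ring, pow_succ]
      ring
    have h6 : 0 < 2 ^ (2 * (2 * e)) := by positivity
    omega
  have := length_ks hq (by omega : 0 < 1 + Nat.pair i (Nat.pair t a)) h4
  unfold sc
  omega

section

variable (E : Decomp) {G : ℕ → ℕ → ℕ} (hG : LS (fun z : ℕ × ℕ => G z.1 z.2))

theorem addr_28 (x t a : ℕ) : (cdc E hG).addr (wd (sc 28 x t a)) = (2 * t).bits := by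
  rw [cdc_addr, num_wd (sc_pos _ _ _ _), (adH_28 x t a).1, (adH_28 x t a).2, if_pos rfl,
    bits_wd, List.append_nil]

theorem addr_29 (x t a : ℕ) : (cdc E hG).addr (wd (sc 29 x t a)) = (2 * t + 1).bits := by
  rw [cdc_addr, num_wd (sc_pos _ _ _ _), (adH_29 x t a).1, (adH_29 x t a).2, if_pos rfl,
    bits_wd, List.append_nil]

/-- A state and its address are short. -/
def Sh (a σ : List Bool) (b : ℕ) : Prop := σ.length ≤ b ∧ a.length ≤ b

variable (w y i : List Bool)

theorem sh_scan {d : List Bool} {n e : ℕ} (hi : i.head? ≠ some false) (h1 : num i < 2 ^ e)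
    (h2 : d.length + n.bits.length < 2 ^ e) (h3 : n.bits.length ≤ e) (h4 : i.length ≤ e) {t : ℕ}
    (ht : t < d.length + n.bits.length + 3) :
    Sh ((cdc E hG).addr ((cdc E hG).run w y (cod (prs d n.bits.reverse)) i t))
      ((cdc E hG).run w y (cod (prs d n.bits.reverse)) i t) (4 * e + 7) := by
  have hz : 0 < 2 ^ e := by positivity
  rcases Nat.eq_zero_or_pos t with rfl | ht0
  · have h0 : (cdc E hG).run w y (cod (prs d n.bits.reverse)) i 0 = false :: i := rfl
    rw [h0]
    refine ⟨?_, ?_⟩
    · rw [List.length_cons]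
      omega
    · have hodd : num (false :: i) % 4 ≠ 0 := by
        show (false.toNat + 2 * num i) % 4 ≠ 0
        rw [Bool.toNat_false]
        rcases i with _ | ⟨b', u'⟩
        · show (0 + 2 * 1) % 4 ≠ 0
          norm_num
        · cases b'
          · exact absurd rfl hi
          · show (0 + 2 * (true.toNat + 2 * num u')) % 4 ≠ 0
            rw [Bool.toNat_true]
            omega
      rw [cdc_addr]
      have h5 : adH (num (false :: i)) = 1 := by
        unfold adH
        rw [ifz_ne hodd]
      have h6 : adS (num (false :: i)) = 0 := by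
        unfold adS
        rw [ifz_ne hodd]
      rw [h5, h6, if_pos rfl]
      show (wd 1 ++ []).length ≤ _
      rw [wd_one]
      exact Nat.zero_le _
  · by_cases h5 : t ≤ d.length + 1
    · obtain ⟨p, rfl⟩ : ∃ p, t = 1 + p := ⟨t - 1, by omega⟩
      rw [scan1 E hG w y i hi (by omega), addr_28]
      refine ⟨length_sc (by omega) h1 (by omega) (by omega), ?_⟩
      have h6 := bits_length_le (n := 2 * p) (k := e + 1) (by rw [pow_succ]; omega)
      omega
    · obtain ⟨p, rfl⟩ : ∃ p, t = d.length + 2 + p := ⟨t - (d.length + 2), by omega⟩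
      rw [scan2 E hG w y i hi (by rw [List.length_reverse]; omega), addr_29]
      have h7 : vl (n.bits.reverse.take p) < 2 ^ e := by
        refine (vl_lt _).trans_le (Nat.pow_le_pow_right (by norm_num) ?_)
        rw [List.length_take, List.length_reverse]
        omega
      refine ⟨length_sc (by omega) h1 (by omega) h7, ?_⟩
      have h6 := bits_length_le (n := 2 * (d.length + p) + 1) (k := e + 1)
        (by rw [pow_succ]; omega)
      omega

/-- The decompressor stops with the answer. -/
theorem says_even {d : List Bool} {n e b : ℕ} (hi : i.head? ≠ some false) (h1 : num i < 2 ^ e)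
    (h2 : d.length + n.bits.length < 2 ^ e) (h3 : n.bits.length ≤ e) (h4 : i.length ≤ e)
    (hb : 4 * e + 7 ≤ b) (hb' : Nat.log 2 (G n (num i)) + 2 ≤ b) (h5 : G n (num i) % 2 = 0) :
    (cdc E hG).Says w y b (cod (prs d n.bits.reverse)) i (wd (G n (num i) / 2)) := by
  have h6 : (cdc E hG).run w y (cod (prs d n.bits.reverse)) i (d.length + n.bits.length + 3) =
      true :: true :: wd (G n (num i) / 2) := by
    rw [scan3 E hG w y i hi n]
    unfold dec
    rw [h5, ifz_zero, ← wd_pred' (G n (num i) / 2)]
    set m := G n (num i) / 2 - 1 with hm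
    rw [show 3 + 4 * (m + 1) = 2 * (2 * (m + 1) + 1) + 1 by ring,
      wd_cons_true _ (by omega), wd_cons_true _ (by omega)]
  refine ⟨_, h6, fun t ht => ?_, fun t ht => ?_⟩
  · rcases ht.lt_or_eq with ht | rfl
    · exact (sh_scan E hG w y i hi h1 h2 h3 h4 ht).1.trans hb
    · rw [h6, List.length_cons, List.length_cons]
      have h7 := length_wd_le' (G n (num i) / 2)
      have h8 : Nat.log 2 (G n (num i) / 2) ≤ Nat.log 2 (G n (num i)) :=
        Nat.log_mono_right (Nat.div_le_self _ _)
      omega
  · exact (sh_scan E hG w y i hi h1 h2 h3 h4 ht).2.trans hb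

/-- The decompressor simulates the other decompressor. -/
theorem says_odd {d v : List Bool} {n e b a : ℕ} (hi : i.head? ≠ some false)
    (h1 : num i < 2 ^ e) (h2 : d.length + n.bits.length < 2 ^ e) (h3 : n.bits.length ≤ e)
    (h4 : i.length ≤ e) (hb : 4 * e + 7 ≤ b) (hb' : a + 7 ≤ b) (h5 : G n (num i) % 2 = 1)
    (hE : E.Says w y a d (wd (G n (num i) / 2)) v) :
    (cdc E hG).Says w y b (cod (prs d n.bits.reverse)) i v := by
  classical
  obtain ⟨T, hT, hs, ha⟩ := hE
  set j := wd (G n (num i) / 2) with hj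
  have hex : ∃ t, (E.run w y d j t).head? = some true := ⟨T, by rw [hT]; rfl⟩
  set T₀ := Nat.find hex with hT₀
  have e1 : (E.run w y d j T₀).head? = some true := Nat.find_spec hex
  have e2 : ∀ t < T₀, (E.run w y d j t).head? ≠ some true := fun t ht => Nat.find_min hex ht
  have e3 : T₀ ≤ T := Nat.find_min' hex (by rw [hT]; rfl)
  have e4 : E.run w y d j T₀ = true :: true :: v := by
    rw [← run_stay w y d j e1 e3, hT]
  set D := cod (prs d n.bits.reverse) with hD
  set t₀ := d.length + n.bits.length + 3 with ht₀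
  have h0 : (cdc E hG).run w y D i t₀ = wd (ks 0 (num (false :: j))) := by
    rw [hD, ht₀, scan3 E hG w y i hi n]
    unfold dec
    rw [h5, ifz_ne one_ne_zero]
    congr 2
    show _ = false.toNat + 2 * num j
    rw [Bool.toNat_false, zero_add, hj, ← wd_pred', num_wd (by omega)]
  have h6 : ∀ t ≤ T₀, (cdc E hG).run w y D i (t₀ + 3 * t) = wd (ks 0 (num (E.run w y d j t))) :=
    fun t ht => sim E hG w y i h0 fun s hs => e2 s (by omega)
  have h7 : (cdc E hG).run w y D i (t₀ + 3 * T₀ + 1) = true :: true :: v := by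
    rw [step_fin E hG w y D i (h6 T₀ le_rfl) e1, e4]
  have h8 : ∀ t, t < t₀ + 3 * T₀ + 1 →
      Sh ((cdc E hG).addr ((cdc E hG).run w y D i t)) ((cdc E hG).run w y D i t) b := by
    intro t ht
    by_cases h9 : t < t₀
    · have h10 := sh_scan E hG w y i hi h1 h2 h3 h4 h9
      exact ⟨h10.1.trans hb, h10.2.trans hb⟩
    · obtain ⟨τ, r, hr, rfl⟩ : ∃ τ r, r < 3 ∧ t = t₀ + 3 * τ + r :=
        ⟨(t - t₀) / 3, (t - t₀) % 3, Nat.mod_lt _ (by norm_num), by omega⟩
      rcases (show τ < T₀ ∨ τ = T₀ ∧ r = 0 by omega) with h10 | ⟨rfl, rfl⟩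
      · have l1 := hs τ (by omega)
        have l2 := ha τ (by omega)
        have h11 := h6 τ h10.le
        obtain ⟨q₁, q₂, c1, c2, c3, c4, c5, c6, _⟩ := step_sim E hG w y i h11 (e2 τ h10)
        rcases (show r = 0 ∨ r = 1 ∨ r = 2 by omega) with rfl | rfl | rfl
        · rw [add_zero, h11, addr_0 E hG (e2 τ h10)]
          have := length_ks_num (q := 0) (by omega) (E.run w y d j τ)
          exact ⟨by omega, by omega⟩
        · rw [c5, addr_1 E hG c1 c2]
          have := length_ks_num (q := q₁) (by omega) (E.run w y d j τ)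
          refine ⟨by omega, ?_⟩
          rw [List.length_cons]
          omega
        · rw [c6, addr_2 E hG c3 c4]
          have := length_ks_num (q := q₂) (by omega) (E.run w y d j τ)
          refine ⟨by omega, ?_⟩
          rw [List.length_cons]
          omega
      · rw [add_zero, h6 T₀ le_rfl, addr_0' E hG e1]
        have l1 := hs T₀ e3
        have := length_ks_num (q := 0) (by omega) (E.run w y d j T₀)
        exact ⟨by omega, Nat.zero_le _⟩
  refine ⟨_, h7, fun t ht => ?_, fun t ht => (h8 t ht).2⟩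
  rcases ht.lt_or_eq with ht | rfl
  · exact (h8 t ht).1
  · rw [h7, ← e4]
    have := hs T₀ e3
    omega

end

theorem length_cod (P : List (Bool × Bool)) : (cod P).length = 2 * P.length := by
  induction P with
  | nil => rfl
  | cons p P ih =>
    show (p.1 :: p.2 :: cod P).length = _
    rw [List.length_cons, List.length_cons, ih, List.length_cons]
    ring

/-- Other names for the registers of a description. -/
theorem conv : Pool.Agent.Helper31.Ink.CONV := by
  intro E G hG ⟨c, hc⟩
  refine ⟨cdc E hG, c + 19, fun w y d h a s => ⟨cod (prs d h.bits.reverse), ?_,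
    fun j hj hj' => ?_⟩⟩
  · rw [length_cod]
    unfold prs
    rw [List.length_append, List.length_map, List.length_map, List.length_reverse]
    have h1 := bits_length_le (lt_two_pow_log h)
    nlinarith
  · set lh := Nat.log 2 h with hlh
    set ld := Nat.log 2 (d.length + 1) with hld
    set e := lh + s + ld + 3 with he
    have h1 : num j < 2 ^ e :=
      (num_lt j).trans_le (Nat.pow_le_pow_right (by norm_num) (by omega))
    have h3 : h.bits.length ≤ lh + 1 := bits_length_le (lt_two_pow_log h)
    have h2 : d.length + h.bits.length < 2 ^ e := by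
      have h4 : d.length + 1 < 2 ^ (ld + 1) := lt_two_pow_log _
      have h5 : lh + 1 < 2 ^ (lh + 1) := Nat.lt_two_pow_self
      have h6 : 2 ^ (ld + 1) ≤ 2 ^ (lh + s + ld + 2) := Nat.pow_le_pow_right (by norm_num) (by omega)
      have h7 : 2 ^ (lh + 1) ≤ 2 ^ (lh + s + ld + 2) := Nat.pow_le_pow_right (by norm_num) (by omega)
      have h8 : 2 ^ e = 2 * 2 ^ (lh + s + ld + 2) := by
        rw [he, show lh + s + ld + 3 = (lh + s + ld + 2) + 1 by ring, pow_succ]
        ring
      omega
    have hlj : Nat.log 2 (num j) ≤ s := by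
      rw [log_num]
      exact hj
    have hlG : Nat.log 2 (G h (num j)) ≤ c * (lh + s + 1) :=
      (hc h (num j)).trans (Nat.mul_le_mul_left c (by omega))
    have hcs : c * (lh + s + 1) ≤ c * (lh + s + ld + 1) := Nat.mul_le_mul_left c (by omega)
    have hK : a + (c + 19) * (lh + s + ld + 1) =
        a + c * (lh + s + ld + 1) + 19 * (lh + s + ld + 1) := by ring
    refine ⟨fun h5 => ?_, fun h5 v hv => ?_⟩
    · refine says_even E hG w y j hj' h1 h2 (by omega) (by omega) ?_ ?_ h5
      · omega
      · omega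
    · refine says_odd E hG w y j hj' h1 h2 (by omega) (by omega) ?_ ?_ h5 hv
      · omega
      · omega

end Pool.Agent.Helper31.Conv
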