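import Pool.Agent.Helper31.Conv.RunB
import Pool.Agent.Helper31.Conv.Bound

/-!
# Registers which contain blocks of registers of a description: the bounds
-/

namespace Pool.Agent.Helper31.Conv

open Pool.Agent.Helper65.LinSpace Pool.Agent.Helper78.Mpc Pool.Agent.Helper28.Ram Finset
open Pool.Agent.Helper81.Sus2 (Decomp)
open Pool.Agent.Helper81.RP (wd num_wd wd_num length_wd head_wd wd_one length_wd_le pair_lt
  wd_cons_true wd_cons_false)
open Pool.Agent.Helper31.TMS (bval_bits)

theorem ctx_lt {h x i V e : ℕ} (h1 : h < 2 ^ e) (h2 : x < 2 ^ e) (h3 : i < 2 ^ e)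
    (h4 : V < 2 ^ e) : ctx h x i V < 2 ^ (4 * e + 1) := by
  have h5 := pair_lt h1 h2
  have h6 := pair_lt h3 h4
  have h7 := pair_lt h5 h6
  have h8 : 2 ^ (4 * e + 1) = 2 * 2 ^ (2 * (2 * e)) := by
    rw [show 4 * e + 1 = 2 * (2 * e) + 1 by ring, pow_succ]
    ring
  have h9 : 0 < 2 ^ (2 * (2 * e)) := by positivity
  unfold ctx
  omega

theorem length_sm {q c m : ℕ} (hq : q < 32) (hc : 0 < c) (hm : c < 2 ^ m) (ε : List Bool) :
    (wd (sm q c ε)).length ≤ 2 * m + ε.length + 8 := by
  have h1 := length_ks_num hq (sd (wd c) ++ ε)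
  rw [List.length_append, length_sd] at h1
  have h2 : (wd c).length ≤ m := by
    refine length_wd_le hc (hm.trans_le (Nat.pow_le_pow_right (by norm_num) (by omega)))
  unfold sm
  omega

section

variable (P : Blk) (E : Decomp) (w y i : List Bool)

theorem sh_scanB {d : List Bool} {n e : ℕ} (hi : i.head? ≠ some false) (h1 : num i < 2 ^ e)
    (h2 : d.length + n.bits.length < 2 ^ e) (h3 : n.bits.length ≤ e) (h4 : i.length ≤ e) {t : ℕ}
    (ht : t < d.length + n.bits.length + 3) :
    Sh ((bdc P E).addr ((bdc P E).run w y (cod (prs d n.bits.reverse)) i t))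
      ((bdc P E).run w y (cod (prs d n.bits.reverse)) i t) (4 * e + 7) := by
  have hz : 0 < 2 ^ e := by positivity
  rcases Nat.eq_zero_or_pos t with rfl | ht0
  · have h0 : (bdc P E).run w y (cod (prs d n.bits.reverse)) i 0 = false :: i := rfl
    rw [h0]
    refine ⟨?_, ?_⟩
    · rw [List.length_cons]
      omega
    · have hodd : num (false :: i) % 4 ≠ 0 := by
        show (false.toNat + 2 * num i) % 4 ≠ 0
        rw [Bool.toNat_false]
        rcases i with _ | ⟨b', u'⟩
        · show (0 + 2 * 1) % 4 ≠ 0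
          norm_num
        · cases b'
          · exact absurd rfl hi
          · show (0 + 2 * (true.toNat + 2 * num u')) % 4 ≠ 0
            rw [Bool.toNat_true]
            omega
      rw [bdc_addr]
      have h5 : baH P (num (false :: i)) = 1 := by
        unfold baH
        rw [ifz_ne hodd]
      have h6 : baS (num (false :: i)) = 0 := by
        unfold baS
        rw [ifz_ne hodd]
      rw [h5, h6, if_pos rfl]
      show (wd 1 ++ []).length ≤ _
      rw [wd_one]
      exact Nat.zero_le _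
  · by_cases h5 : t ≤ d.length + 1
    · obtain ⟨p, rfl⟩ : ∃ p, t = 1 + p := ⟨t - 1, by omega⟩
      rw [scanB1 P E w y i hi (by omega), addrB_28]
      refine ⟨length_sc (by omega) h1 (by omega) (by omega), ?_⟩
      have h6 := bits_length_le (n := 2 * p) (k := e + 1) (by rw [pow_succ]; omega)
      omega
    · obtain ⟨p, rfl⟩ : ∃ p, t = d.length + 2 + p := ⟨t - (d.length + 2), by omega⟩
      rw [scanB2 P E w y i hi (by rw [List.length_reverse]; omega), addrB_29]
      have h7 : vl (n.bits.reverse.take p) < 2 ^ e := by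
        refine (vl_lt _).trans_le (Nat.pow_le_pow_right (by norm_num) ?_)
        rw [List.length_take, List.length_reverse]
        omega
      refine ⟨length_sc (by omega) h1 (by omega) h7, ?_⟩
      have h6 := bits_length_le (n := 2 * (d.length + p) + 1) (k := e + 1)
        (by rw [pow_succ]; omega)
      omega

theorem put_ctx (h x k V v : ℕ) :
    put P (ctx h x (k + 1) V) v = ks 30 (ctx h x k (v + P.B h x * V)) := by
  unfold put
  rw [cH_ctx, cX_ctx, cI_ctx, cV_ctx, Nat.add_sub_cancel]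

theorem gO_ctx (h x k V : ℕ) : gO P (ctx h x (k + 1) V) = P.G h x k := by
  unfold gO
  rw [cH_ctx, cX_ctx, cI_ctx, Nat.add_sub_cancel]

theorem lpH_succ (h x k V lw ly : ℕ) : lpH P (ctx h x (k + 1) V) lw ly =
    ifz (P.G h x k % 4) (put P (ctx h x (k + 1) V) (P.G h x k / 4))
      (ifz (P.G h x k % 4 - 1)
        (ks 0 (catN (sdN (ctx h x (k + 1) V)) (2 * (P.G h x k / 4 - 1 + 1))))
        (ifz (P.G h x k % 4 - 2) (put P (ctx h x (k + 1) V) lw)
          (put P (ctx h x (k + 1) V) ly))) := by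
  unfold lpH
  rw [gO_ctx, cI_ctx, ifz_ne (Nat.succ_ne_zero k)]

/-- One digit. -/
theorem digit_run {d hh : List Bool} {t h x k V v a b m : ℕ}
    (h0 : (bdc P E).run w y (cod (prs d hh)) i t = wd (ks 30 (ctx h x (k + 1) V)))
    (hv : Digit E w y a d (P.G h x k) v) (hm : ctx h x (k + 1) V < 2 ^ m)
    (hG : P.G h x k < 2 ^ b) (hb : a + 2 * m + 8 ≤ b) :
    ∃ t' : ℕ, t < t' ∧ (bdc P E).run w y (cod (prs d hh)) i t' =
      wd (ks 30 (ctx h x k (v + P.B h x * V))) ∧ ∀ u, t ≤ u → u < t' →
        Sh ((bdc P E).addr ((bdc P E).run w y (cod (prs d hh)) i u))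
          ((bdc P E).run w y (cod (prs d hh)) i u) b := by
  classical
  set D := cod (prs d hh) with hD
  set c := ctx h x (k + 1) V with hc
  have hc0 : 0 < c := ctx_pos _ _ _ _
  have h1 := stepB_30 P E w y D i hc0 h0
  rw [hc, lpH_succ, gO_ctx, ← hc] at h1
  have hsh : Sh ((bdc P E).addr ((bdc P E).run w y D i t)) ((bdc P E).run w y D i t) b := by
    rw [h0, addrB_30 P E hc0, hc, gO_ctx, ← hc]
    refine ⟨(length_ks (by omega) hc0 hm).trans (by omega), ?_⟩
    exact bits_length_le (lt_of_le_of_lt (Nat.div_le_self _ _) hG)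
  have one : (bdc P E).run w y D i (t + 1) = wd (put P c v) →
      ∃ t' : ℕ, t < t' ∧ (bdc P E).run w y D i t' = wd (ks 30 (ctx h x k (v + P.B h x * V))) ∧
        ∀ u, t ≤ u → u < t' → Sh ((bdc P E).addr ((bdc P E).run w y D i u))
          ((bdc P E).run w y D i u) b := by
    intro h2
    refine ⟨t + 1, by omega, ?_, fun u hu hu' => ?_⟩
    · rw [h2, hc, put_ctx]
    · obtain rfl : u = t := by omega
      exact hsh
  rcases hv with hv | ⟨n, hn, hE⟩ | ⟨n, hn, hv⟩ | ⟨n, hn, hv⟩
  · refine one ?_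
    rw [h1, hv, show 4 * v % 4 = 0 by omega, ifz_zero, show 4 * v / 4 = v by omega]
  · rw [hn, show (4 * n + 1) % 4 = 1 by omega, ifz_ne one_ne_zero, Nat.sub_self, ifz_zero,
      show (4 * n + 1) / 4 = n by omega] at h1
    set j := wd n with hj
    have h2 : (bdc P E).run w y D i (t + 1) = wd (sm 0 c (false :: j)) := by
      rw [h1]
      congr 1
      have h3 : 2 * (n - 1 + 1) = num (false :: j) := by
        show _ = false.toNat + 2 * num j
        rw [Bool.toNat_false, zero_add, hj, ← wd_pred', num_wd (by omega)]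
      rw [h3, catN_sm hc0]
      rfl
    obtain ⟨T, hT, hs, ha⟩ := hE
    have hex : ∃ t, (E.run w y d j t).head? = some true := ⟨T, by rw [hT]; rfl⟩
    set T₀ := Nat.find hex with hT₀
    have e1 : (E.run w y d j T₀).head? = some true := Nat.find_spec hex
    have e2 : ∀ t < T₀, (E.run w y d j t).head? ≠ some true := fun t ht => Nat.find_min hex ht
    have e3 : T₀ ≤ T := Nat.find_min' hex (by rw [hT]; rfl)
    have e4 : E.run w y d j T₀ = true :: true :: wd (v + 1) := by
      rw [← run_stay w y d j e1 e3, hT]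
    have h6 : ∀ t' ≤ T₀, (bdc P E).run w y D i (t + 1 + 3 * t') = wd (sm 0 c (E.run w y d j t')) :=
      fun t' ht => simB P E w y i hc0 h2 fun s hs => e2 s (by omega)
    have h7 : (bdc P E).run w y D i (t + 1 + 3 * T₀ + 1) =
        wd (ks 30 (ctx h x k (v + P.B h x * V))) := by
      have h8 := h6 T₀ le_rfl
      rw [e4] at h8
      rw [stepB_fin P E w y D i hc0 h8, num_wd (by omega), Nat.add_sub_cancel, hc, put_ctx]
    refine ⟨t + 1 + 3 * T₀ + 1, by omega, h7, fun u hu hu' => ?_⟩
    by_cases h9 : u < t + 1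
    · obtain rfl : u = t := by omega
      exact hsh
    · obtain ⟨τ, r, hr, rfl⟩ : ∃ τ r, r < 3 ∧ u = t + 1 + 3 * τ + r :=
        ⟨(u - (t + 1)) / 3, (u - (t + 1)) % 3, Nat.mod_lt _ (by norm_num), by omega⟩
      rcases (show τ < T₀ ∨ τ = T₀ ∧ r = 0 by omega) with h10 | ⟨rfl, rfl⟩
      · have l1 := hs τ (by omega)
        have l2 := ha τ (by omega)
        have h11 := h6 τ h10.le
        obtain ⟨q₁, q₂, c1, c2, c3, c4, c5, c6, _⟩ := stepB_sim P E w y i hc0 h11 (e2 τ h10)
        rcases (show r = 0 ∨ r = 1 ∨ r = 2 by omega) with rfl | rfl | rfl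
        · rw [add_zero, h11, addrB_0 P E c (e2 τ h10)]
          have := length_sm (q := 0) (by omega) hc0 hm (E.run w y d j τ)
          exact ⟨by omega, by omega⟩
        · rw [c5, addrB_1 P E c1 c2]
          have := length_sm (q := q₁) (by omega) hc0 hm (E.run w y d j τ)
          refine ⟨by omega, ?_⟩
          rw [List.length_cons]
          omega
        · rw [c6, addrB_2 P E c3 c4]
          have := length_sm (q := q₂) (by omega) hc0 hm (E.run w y d j τ)
          refine ⟨by omega, ?_⟩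
          rw [List.length_cons]
          omega
      · rw [add_zero, h6 T₀ le_rfl, addrB_0' P E c e1]
        have l1 := hs T₀ e3
        have := length_sm (q := 0) (by omega) hc0 hm (E.run w y d j T₀)
        exact ⟨by omega, Nat.zero_le _⟩
  · refine one ?_
    rw [h1, hn, show (4 * n + 2) % 4 = 2 by omega, ifz_ne (by norm_num), ifz_ne (by norm_num),
      Nat.sub_self, ifz_zero, show (4 * n + 2) / 4 = n by omega, hv]
  · refine one ?_
    rw [h1, hn, show (4 * n + 3) % 4 = 3 by omega, ifz_ne (by norm_num), ifz_ne (by norm_num),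
      ifz_ne (by norm_num), show (4 * n + 3) / 4 = n by omega, hv]

/-- The number given by the digits number `k, k + 1, …`. -/
def rst (v : ℕ → ℕ) (B N k : ℕ) : ℕ := ∑ j ∈ range (N - k), v (k + j) * B ^ j

theorem rst_self (v : ℕ → ℕ) (B N : ℕ) : rst v B N N = 0 := by
  unfold rst
  rw [Nat.sub_self, sum_range_zero]

theorem rst_zero (v : ℕ → ℕ) (B N : ℕ) : rst v B N 0 = ∑ j ∈ range N, v j * B ^ j := by
  unfold rst
  rw [Nat.sub_zero]
  exact sum_congr rfl fun j _ => by rw [zero_add]

theorem rst_succ (v : ℕ → ℕ) (B : ℕ) {N k : ℕ} (h : k < N) :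
    rst v B N k = v k + B * rst v B N (k + 1) := by
  unfold rst
  rw [show N - k = (N - (k + 1)) + 1 by omega, sum_range_succ', pow_zero, mul_one, add_zero,
    add_comm, mul_sum]
  congr 1
  refine sum_congr rfl fun j _ => ?_
  rw [show k + (j + 1) = k + 1 + j by ring, pow_succ]
  ring

theorem rst_lt {v : ℕ → ℕ} {B N : ℕ} (hv : ∀ j < N, v j < B) {k : ℕ} (hk : k ≤ N) :
    rst v B N k < B ^ (N - k) := by
  obtain ⟨r, rfl⟩ : ∃ r, N = k + r := ⟨N - k, by omega⟩
  induction r generalizing k with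
  | zero =>
    rw [add_zero, rst_self, Nat.sub_self, pow_zero]
    exact Nat.one_pos
  | succ r ih =>
    rw [rst_succ v B (by omega), show k + (r + 1) - k = r + 1 by omega]
    have h1 := ih (k := k + 1) (by rw [show k + 1 + r = k + (r + 1) by ring]; exact hv) (by omega)
    rw [show k + 1 + r = k + (r + 1) by ring, show k + (r + 1) - (k + 1) = r by omega] at h1
    have h2 := hv k (by omega)
    rw [pow_succ]
    nlinarith

/-- All digits. -/
theorem digits_run {d hh : List Bool} {t h x N a b e : ℕ} {v : ℕ → ℕ}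
    (h0 : (bdc P E).run w y (cod (prs d hh)) i t = wd (ks 30 (ctx h x N 0)))
    (hv : ∀ k < N, v k < P.B h x ∧ Digit E w y a d (P.G h x k) (v k))
    (h1 : h < 2 ^ e) (h2 : x < 2 ^ e) (h3 : N < 2 ^ e) (h4 : P.B h x ^ N ≤ 2 ^ e)
    (hG : ∀ k < N, P.G h x k < 2 ^ b) (hb : a + 2 * (4 * e + 1) + 8 ≤ b) {k : ℕ} (hk : k ≤ N) :
    ∃ t' : ℕ, t ≤ t' ∧ (bdc P E).run w y (cod (prs d hh)) i t' =
      wd (ks 30 (ctx h x (N - k) (rst v (P.B h x) N (N - k)))) ∧ ∀ u, t ≤ u → u < t' →
        Sh ((bdc P E).addr ((bdc P E).run w y (cod (prs d hh)) i u))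
          ((bdc P E).run w y (cod (prs d hh)) i u) b := by
  induction k with
  | zero =>
    refine ⟨t, le_rfl, ?_, fun u hu hu' => absurd hu (by omega)⟩
    rw [Nat.sub_zero, rst_self, h0]
  | succ k ih =>
    obtain ⟨t₁, ht₁, e1, e2⟩ := ih (by omega)
    rw [show N - k = (N - (k + 1)) + 1 by omega] at e1
    have hlt : rst v (P.B h x) N (N - (k + 1) + 1) < 2 ^ e := by
      have h5 := rst_lt (v := v) (B := P.B h x) (fun j hj => (hv j hj).1)
        (show N - (k + 1) + 1 ≤ N by omega)
      refine h5.trans_le (le_trans ?_ h4)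
      have h6 := (hv (N - (k + 1)) (by omega)).1
      exact Nat.pow_le_pow_right (by omega) (by omega)
    obtain ⟨t₂, ht₂, e3, e4⟩ := digit_run P E w y i e1 (hv (N - (k + 1)) (by omega)).2
      (ctx_lt h1 h2 (by omega) hlt) (hG _ (by omega)) hb
    refine ⟨t₂, by omega, ?_, fun u hu hu' => ?_⟩
    · rw [e3, ← rst_succ v (P.B h x) (by omega)]
    · by_cases h5 : u < t₁
      · exact e2 u hu h5
      · exact e4 u (by omega) hu'

/-- The whole computation. -/
theorem saysB {d : List Bool} {n e b a : ℕ} {v : ℕ → ℕ} (hi : i.head? ≠ some false)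
    (h1 : num i < 2 ^ e) (h2 : d.length + n.bits.length < 2 ^ e) (h3 : n.bits.length ≤ e)
    (h4 : i.length ≤ e) (h5 : n < 2 ^ e) (h6 : P.N n (num i) < 2 ^ e)
    (h7 : P.B n (num i) ^ P.N n (num i) ≤ 2 ^ e)
    (hv : ∀ k < P.N n (num i), v k < P.B n (num i) ∧ Digit E w y a d (P.G n (num i) k) (v k))
    (hG : ∀ k < P.N n (num i), P.G n (num i) k < 2 ^ b)
    (hg : gO P (ctx n (num i) 0 (∑ k ∈ range (P.N n (num i)), v k * P.B n (num i) ^ k)) < 2 ^ b)
    (hb : a + 2 * (4 * e + 1) + 8 ≤ b)
    (hΦ : Nat.log 2 (P.Φ n (num i) (∑ k ∈ range (P.N n (num i)), v k * P.B n (num i) ^ k)) +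
      2 ≤ b) :
    (bdc P E).Says w y b (cod (prs d n.bits.reverse)) i
      (wd (P.Φ n (num i) (∑ k ∈ range (P.N n (num i)), v k * P.B n (num i) ^ k))) := by
  have s1 := scanB3 P E w y i hi (d := d) n
  obtain ⟨t₁, ht₁, e1, e2⟩ := digits_run P E w y i s1 hv h5 h1 h6 h7 hG hb (k := P.N n (num i))
    le_rfl
  rw [Nat.sub_self, rst_zero] at e1
  set V := ∑ k ∈ range (P.N n (num i)), v k * P.B n (num i) ^ k with hV
  have hVlt : V < 2 ^ e := by
    rw [hV, ← rst_zero]
    exact (rst_lt (fun j hj => (hv j hj).1) (Nat.zero_le _)).trans_le h7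
  have e3 := stepB_30 P E w y _ i (ctx_pos _ _ _ _) e1
  have e4 : (bdc P E).run w y (cod (prs d n.bits.reverse)) i (t₁ + 1) =
      true :: true :: wd (P.Φ n (num i) V) := by
    rw [e3]
    unfold lpH
    rw [cI_ctx, ifz_zero, cH_ctx, cX_ctx, cV_ctx, ← wd_pred' (P.Φ n (num i) V)]
    set m := P.Φ n (num i) V - 1 with hm
    rw [show 3 + 4 * (m + 1) = 2 * (2 * (m + 1) + 1) + 1 by ring,
      wd_cons_true _ (by omega), wd_cons_true _ (by omega)]
  have hctx : ctx n (num i) 0 V < 2 ^ (4 * e + 1) := ctx_lt h5 h1 (by positivity) hVlt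
  have h8 : ∀ t, t < t₁ + 1 →
      Sh ((bdc P E).addr ((bdc P E).run w y (cod (prs d n.bits.reverse)) i t))
        ((bdc P E).run w y (cod (prs d n.bits.reverse)) i t) b := by
    intro t ht
    by_cases h9 : t < d.length + n.bits.length + 3
    · have h10 := sh_scanB P E w y i hi h1 h2 h3 h4 h9
      exact ⟨h10.1.trans (by omega), h10.2.trans (by omega)⟩
    · by_cases h10 : t < t₁
      · exact e2 t (by omega) h10
      · obtain rfl : t = t₁ := by omega
        rw [e1, addrB_30 P E (ctx_pos _ _ _ _)]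
        refine ⟨(length_ks (by omega) (ctx_pos _ _ _ _) hctx).trans (by omega), ?_⟩
        exact bits_length_le (lt_of_le_of_lt (Nat.div_le_self _ _) hg)
  refine ⟨_, e4, fun t ht => ?_, fun t ht => (h8 t ht).2⟩
  rcases ht.lt_or_eq with ht | rfl
  · exact (h8 t ht).1
  · rw [e4, List.length_cons, List.length_cons]
    have h9 := length_wd_le' (P.Φ n (num i) V)
    omega

end

theorem lt_of_log {x k : ℕ} (h : Nat.log 2 x ≤ k) : x < 2 ^ (k + 1) :=
  (lt_two_pow_log x).trans_le (Nat.pow_le_pow_right (by norm_num) (by omega))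

/-- Registers which contain blocks of registers of a description. -/
theorem convB : CONVB := by
  intro E N B G Φ hN hB hG hΦ
  set P : Blk := ⟨N, B, G, Φ, hN, hB, hG, hΦ⟩ with hP
  obtain ⟨cN, hcN⟩ := ls_log2 hN
  obtain ⟨cG, hcG⟩ := ls_log3 hG
  obtain ⟨cΦ, hcΦ⟩ := ls_log3 hΦ
  refine ⟨bdc P E, 8 * cN + 60 + cG * (1 + cN) + cΦ,
    fun w y d h a s W => ⟨cod (prs d h.bits.reverse), ?_, fun j v hj hj' hW hv => ?_⟩⟩
  · rw [length_cod]
    unfold prs
    rw [List.length_append, List.length_map, List.length_map, List.length_reverse]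
    have h1 := bits_length_le (lt_two_pow_log h)
    nlinarith [Nat.zero_le (cG * (1 + cN)), Nat.zero_le ((8 * cN + cG * (1 + cN) + cΦ) *
      (Nat.log 2 h + 1))]
  · set lh := Nat.log 2 h with hlh
    set ld := Nat.log 2 (d.length + 1) with hld
    set L := lh + s + ld + W + 1 with hL
    set e := L + cN * L + 4 with he
    have hlj : Nat.log 2 (num j) ≤ s := by
      rw [log_num]
      exact hj
    have hlN : Nat.log 2 (N h (num j)) ≤ cN * L :=
      (hcN h (num j)).trans (Nat.mul_le_mul_left cN (by omega))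
    have h1 : num j < 2 ^ e := (lt_of_log hlj).trans_le
      (Nat.pow_le_pow_right (by norm_num) (by omega))
    have h3 : h.bits.length ≤ lh + 1 := bits_length_le (lt_two_pow_log h)
    have h2 : d.length + h.bits.length < 2 ^ e := by
      have h4 : d.length + 1 < 2 ^ (ld + 1) := lt_two_pow_log _
      have h5 : lh + 1 < 2 ^ (lh + 1) := Nat.lt_two_pow_self
      have h6 : 2 ^ (ld + 1) ≤ 2 ^ (L + 1) := Nat.pow_le_pow_right (by norm_num) (by omega)
      have h7 : 2 ^ (lh + 1) ≤ 2 ^ (L + 1) := Nat.pow_le_pow_right (by norm_num) (by omega)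
      have h8 : 2 * 2 ^ (L + 1) ≤ 2 ^ e := by
        rw [← pow_succ']
        exact Nat.pow_le_pow_right (by norm_num) (by omega)
      omega
    have h5 : h < 2 ^ e := (lt_two_pow_log h).trans_le
      (Nat.pow_le_pow_right (by norm_num) (by omega))
    have h6 : N h (num j) < 2 ^ e := (lt_of_log hlN).trans_le
      (Nat.pow_le_pow_right (by norm_num) (by omega))
    have h7 : B h (num j) ^ N h (num j) ≤ 2 ^ e :=
      hW.trans (Nat.pow_le_pow_right (by norm_num) (by omega))
    set V := ∑ k ∈ range (N h (num j)), v k * B h (num j) ^ k with hV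
    have hlV : Nat.log 2 V ≤ W := by
      have h8 : V < 2 ^ W := by
        rw [hV, ← rst_zero]
        exact (rst_lt (fun j hj => (hv j hj).1) (Nat.zero_le _)).trans_le hW
      rcases Nat.eq_zero_or_pos V with h9 | h9
      · rw [h9, Nat.log_zero_right]
        exact Nat.zero_le _
      · exact (Nat.log_lt_of_lt_pow h9.ne' h8).le
    have hK : a + (8 * cN + 60 + cG * (1 + cN) + cΦ) * L =
        a + 8 * (cN * L) + 60 * L + cG * (L + cN * L) + cΦ * L := by ring
    set b := a + (8 * cN + 60 + cG * (1 + cN) + cΦ) * L with hb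
    have hbe : a + 2 * (4 * e + 1) + 8 ≤ b := by
      rw [hK, he]
      omega
    have hGb : ∀ k, Nat.log 2 k ≤ Nat.log 2 (N h (num j)) → G h (num j) k < 2 ^ b := by
      intro k hk
      have h8 : Nat.log 2 (G h (num j) k) ≤ cG * (L + cN * L) :=
        (hcG h (num j) k).trans (Nat.mul_le_mul_left cG (by omega))
      refine (lt_of_log h8).trans_le (Nat.pow_le_pow_right (by norm_num) ?_)
      rw [hK]
      omega
    refine saysB P E w y j hj' h1 h2 (by omega) (by omega) h5 h6 h7 hv
      (fun k hk => hGb k (Nat.log_mono_right hk.le)) ?_ hbe ?_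
    · unfold gO
      rw [cH_ctx, cX_ctx, cI_ctx]
      exact hGb _ (by
        rw [Nat.zero_sub, Nat.log_zero_right]
        exact Nat.zero_le _)
    · have h8 : Nat.log 2 (Φ h (num j) V) ≤ cΦ * L :=
        (hcΦ h (num j) V).trans (Nat.mul_le_mul_left cΦ (by omega))
      rw [hK]
      show Nat.log 2 (Φ h (num j) V) + 2 ≤ _
      omega

end Pool.Agent.Helper31.Conv
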