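import Pool.Agent.Helper31.Conv.Dec

/-!
# Other names for the registers of a description: the computation
-/

namespace Pool.Agent.Helper31.Conv

open Pool.Agent.Helper65.LinSpace Pool.Agent.Helper78.Mpc Pool.Agent.Helper28.Ram
open Pool.Agent.Helper81.Sus2 (Decomp)
open Pool.Agent.Helper81.RP (wd num_wd wd_num length_wd head_wd wd_one lt01_of
  length_wd_le pair_lt)
open Pool.Agent.Helper31.TMS (bval_bits)

/-! ### The description -/

/-- The description: the letters of `d` after letters `1`, and the letters of `h` after letters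
`0`. -/
def cod (P : List (Bool × Bool)) : List Bool := P.flatMap fun p => [p.1, p.2]

theorem cod_even (P : List (Bool × Bool)) (j : ℕ) : (cod P)[2 * j]? = P[j]?.map Prod.fst := by
  induction P generalizing j with
  | nil => simp [cod]
  | cons p P ih =>
    rcases j with _ | j
    · rfl
    · show (p.1 :: p.2 :: cod P)[2 * j + 1 + 1]? = _
      rw [List.getElem?_cons_succ, List.getElem?_cons_succ, ih, List.getElem?_cons_succ]

theorem cod_odd (P : List (Bool × Bool)) (j : ℕ) : (cod P)[2 * j + 1]? = P[j]?.map Prod.snd := by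
  induction P generalizing j with
  | nil => simp [cod]
  | cons p P ih =>
    rcases j with _ | j
    · rfl
    · show (p.1 :: p.2 :: cod P)[2 * j + 1 + 1 + 1]? = _
      rw [List.getElem?_cons_succ, List.getElem?_cons_succ, ih, List.getElem?_cons_succ]

/-- The pairs of the description. -/
def prs (d h : List Bool) : List (Bool × Bool) :=
  d.map (fun b => (true, b)) ++ h.map fun b => (false, b)

theorem prs_left {d : List Bool} (h : List Bool) {j : ℕ} (hj : j < d.length) :
    (prs d h)[j]? = some (true, d[j]) := by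
  unfold prs
  rw [List.getElem?_append_left (by simpa using hj), List.getElem?_map,
    List.getElem?_eq_getElem hj]
  rfl

theorem prs_right (d h : List Bool) {j : ℕ} (hj : d.length ≤ j) :
    (prs d h)[j]? = (h[j - d.length]?).map fun b => (false, b) := by
  unfold prs
  rw [List.getElem?_append_right (by simpa using hj), List.getElem?_map, List.length_map]

/-- The value of a word, the most significant digit first. -/
def vl (l : List Bool) : ℕ := l.foldl (fun a b => b.toNat + 2 * a) 0

theorem vl_append (l : List Bool) (b : Bool) : vl (l ++ [b]) = b.toNat + 2 * vl l := by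
  unfold vl
  rw [List.foldl_append]
  rfl

theorem bval_foldr (l : List Bool) : l.foldr (fun b a => b.toNat + 2 * a) 0 = bval l := by
  induction l with
  | nil => rfl
  | cons b l ih =>
    show b.toNat + 2 * l.foldr (fun b a => b.toNat + 2 * a) 0 = b.toNat + 2 * bval l
    rw [ih]

theorem vl_bits (n : ℕ) : vl n.bits.reverse = n := by
  unfold vl
  rw [List.foldl_reverse, bval_foldr, bval_bits]

/-! ### Values of the functions -/

theorem codeO_le (x : Option Bool) : codeO x ≤ 2 := by
  rcases x with _ | b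
  · exact Nat.zero_le _
  · show 1 + b.toNat ≤ 2
    have := toNat_le_one b
    omega

theorem lt01_not {a b : ℕ} (h : ¬a < b) : lt01 a b = 0 := by
  unfold lt01
  rw [if_neg h]

theorem eq01_not {a b : ℕ} (h : a ≠ b) : eq01 a b = 0 := by
  unfold eq01
  rw [if_neg h]

theorem eq01_self (a : ℕ) : eq01 a a = 1 := by
  unfold eq01
  rw [if_pos rfl]

variable {G : ℕ → ℕ → ℕ}

theorem adH_0 (X : ℕ) : adH (ks 0 X) = 1 ∧ adS (ks 0 X) = if X % 2 = 1 ∧ 1 < X then 0 else 1 := by
  unfold adH adS
  rw [ks_mod, ifz_zero, ifz_zero, kO_ks (by omega), ifz_zero, ifz_zero, xO_ks (by omega)]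
  refine ⟨rfl, ?_⟩
  by_cases h1 : X % 2 = 0
  · rw [h1, ifz_zero, if_neg (by omega)]
  · rw [ifz_ne h1]
    by_cases h2 : X - 1 = 0
    · rw [h2, ifz_zero, if_neg (by omega)]
    · rw [ifz_ne h2, if_pos (by omega)]

theorem adH_1 {q : ℕ} (h1 : 1 ≤ q) (h2 : q < 10) (X : ℕ) :
    adH (ks q X) = 2 ∧ adS (ks q X) = 1 := by
  unfold adH adS
  rw [ks_mod, ifz_zero, ifz_zero, kO_ks (by omega), ifz_ne (by omega), lt01_of h2,
    ifz_ne one_ne_zero, ifz_ne (by omega), lt01_of (by omega)]
  exact ⟨rfl, rfl⟩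

theorem adH_2 {q : ℕ} (h1 : 10 ≤ q) (h2 : q < 28) (X : ℕ) :
    adH (ks q X) = 3 ∧ adS (ks q X) = 1 := by
  unfold adH adS
  rw [ks_mod, ifz_zero, ifz_zero, kO_ks (by omega), ifz_ne (by omega), lt01_not (by omega),
    ifz_zero, lt01_of h2, ifz_ne one_ne_zero, ifz_ne (by omega)]
  exact ⟨rfl, rfl⟩

theorem adH_28 (i t a : ℕ) : adH (sc 28 i t a) = bitsN (2 * t) ∧ adS (sc 28 i t a) = 0 := by
  unfold adH adS
  rw [tO_sc (by omega)]
  unfold sc
  rw [ks_mod, ifz_zero, ifz_zero, kO_ks (by omega), ifz_ne (by omega), lt01_not (by omega),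
    ifz_zero, lt01_not (by omega), ifz_zero, eq01_self, ifz_ne one_ne_zero, ifz_ne (by omega)]
  exact ⟨rfl, rfl⟩

theorem adH_29 (i t a : ℕ) : adH (sc 29 i t a) = bitsN (2 * t + 1) ∧ adS (sc 29 i t a) = 0 := by
  unfold adH adS
  rw [tO_sc (by omega)]
  unfold sc
  rw [ks_mod, ifz_zero, ifz_zero, kO_ks (by omega), ifz_ne (by omega), lt01_not (by omega),
    ifz_zero, lt01_not (by omega), ifz_zero, eq01_not (by omega), ifz_zero, ifz_ne (by omega)]
  exact ⟨rfl, rfl⟩

theorem nxH_0 {X : ℕ} (lw ly lz : ℕ) :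
    nxH G (ks 0 X) lw ly lz = (if X % 2 = 1 ∧ 1 < X then X else ks (1 + 3 * lw + ly) X) ∧
      nxS (ks 0 X) = 0 := by
  unfold nxH nxS
  rw [ks_mod, ifz_zero, ifz_zero, kO_ks (by omega), ifz_zero, xO_ks (by omega),
    lt01_not (by omega), zero_mul]
  refine ⟨?_, rfl⟩
  by_cases h1 : X % 2 = 0
  · rw [h1, ifz_zero, if_neg (by omega)]
  · rw [ifz_ne h1]
    by_cases h2 : X - 1 = 0
    · rw [h2, ifz_zero, if_neg (by omega)]
    · rw [ifz_ne h2, if_pos (by omega)]

theorem nxH_1 {q : ℕ} (h1 : 1 ≤ q) (h2 : q < 10) (X lw ly lz : ℕ) :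
    nxH G (ks q X) lw ly lz = (if lz = 2 then ks (q + 18) X else ks (q + 9) X) ∧
      nxS (ks q X) = 0 := by
  unfold nxH nxS
  rw [ks_mod, ifz_zero, ifz_zero, kO_ks (by omega), ifz_ne (by omega), xO_ks (by omega),
    lt01_of h2, ifz_ne one_ne_zero, lt01_not (by omega), zero_mul]
  refine ⟨?_, rfl⟩
  by_cases h3 : lz = 2
  · rw [if_pos h3, h3, eq01_self, ifz_ne one_ne_zero]
  · rw [if_neg h3, eq01_not h3, ifz_zero]

theorem nxH_2 {q : ℕ} (h1 : 10 ≤ q) (h2 : q < 28) (X lw ly lz : ℕ) :
    nxH G (ks q X) lw ly lz = 128 ∧ nxS (ks q X) = 1 := by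
  unfold nxH nxS
  rw [ks_mod, ifz_zero, ifz_zero, kO_ks (by omega), ifz_ne (by omega), lt01_not (by omega),
    ifz_zero, lt01_of h2, ifz_ne one_ne_zero, lt01_of (by omega), one_mul]
  exact ⟨rfl, rfl⟩

theorem nxH_28 (i t a lw ly lz : ℕ) :
    nxH G (sc 28 i t a) lw ly lz = (if lz = 2 then sc 28 i (t + 1) 0 else sc 29 i t 0) ∧
      nxS (sc 28 i t a) = 0 := by
  unfold nxH nxS
  rw [tO_sc (by omega), iO_sc (by omega)]
  have hm : sc 28 i t a % 4 = 0 := ks_mod _ _
  have hk : kO (sc 28 i t a) = 28 := kO_ks (by omega) _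
  rw [hm, ifz_zero, ifz_zero, hk, ifz_ne (by omega), lt01_not (by omega), ifz_zero,
    lt01_not (by omega), ifz_zero, eq01_self, ifz_ne one_ne_zero, mul_zero]
  refine ⟨?_, rfl⟩
  by_cases h3 : lz = 2
  · rw [if_pos h3, h3, eq01_self, ifz_ne one_ne_zero]
  · rw [if_neg h3, eq01_not h3, ifz_zero]

theorem nxH_29 (i t a lw ly lz : ℕ) :
    nxH G (sc 29 i t a) lw ly lz =
      (if lz = 0 then dec G a i else sc 29 i (t + 1) (lz - 1 + 2 * a)) ∧
      nxS (sc 29 i t a) = 0 := by
  unfold nxH nxS
  rw [tO_sc (by omega), iO_sc (by omega), aO_sc (by omega)]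
  have hm : sc 29 i t a % 4 = 0 := ks_mod _ _
  have hk : kO (sc 29 i t a) = 29 := kO_ks (by omega) _
  rw [hm, ifz_zero, ifz_zero, hk, ifz_ne (by omega), lt01_not (by omega), ifz_zero,
    lt01_not (by omega), ifz_zero, eq01_not (by omega), ifz_zero, mul_zero]
  refine ⟨?_, rfl⟩
  unfold ifz
  rfl

/-! ### Steps -/

section

variable (E : Decomp) (hG : LS (fun z : ℕ × ℕ => G z.1 z.2)) (w y D i : List Bool)

/-- The number of the letter which is read in the state with the number `n`. -/
noncomputable def rdA (n : ℕ) : ℕ := bval ((cdc E hG).addr (wd n))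

theorem run_step {t n : ℕ} (hn : 0 < n) (h : (cdc E hG).run w y D i t = wd n)
    (h2 : n % 2 = 0) :
    (cdc E hG).run w y D i (t + 1) =
      wd (nxH G n (codeO w[rdA E hG n]?) (codeO y[rdA E hG n]?) (codeO D[rdA E hG n]?) - 1 + 1) ++
        if nxS n = 0 then [] else E.next (wd (nxA n (codeO D[rdA E hG n]?) - 1 + 1)) := by
  have h1 : (cdc E hG).run w y D i (t + 1) = if ((cdc E hG).run w y D i t).head? = some true then
      (cdc E hG).run w y D i t else (cdc E hG).next (sd ((cdc E hG).run w y D i t) ++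
        (sd w[bval ((cdc E hG).addr ((cdc E hG).run w y D i t))]?.toList ++
          (sd y[bval ((cdc E hG).addr ((cdc E hG).run w y D i t))]?.toList ++
            D[bval ((cdc E hG).addr ((cdc E hG).run w y D i t))]?.toList))) := rfl
  have h3 : (wd n).head? ≠ some true := fun h4 => by
    have := (head_wd hn).1 h4
    omega
  rw [h1, h, if_neg h3, cdc_next, num_wd hn]
  rfl

theorem run_stay {E' : Decomp} {t t' : ℕ} (h : (E'.run w y D i t).head? = some true)
    (htt : t ≤ t') : E'.run w y D i t' = E'.run w y D i t := by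
  induction t', htt using Nat.le_induction with
  | base => rfl
  | succ t' _ ih =>
    have h1 : E'.run w y D i (t' + 1) = if (E'.run w y D i t').head? = some true then
      E'.run w y D i t' else E'.next (sd (E'.run w y D i t') ++
        (sd w[bval (E'.addr (E'.run w y D i t'))]?.toList ++
          (sd y[bval (E'.addr (E'.run w y D i t'))]?.toList ++
            D[bval (E'.addr (E'.run w y D i t'))]?.toList))) := rfl
    rw [h1, ih, if_pos h]

theorem step_start (hi : i.head? ≠ some false) :
    (cdc E hG).run w y D i 1 = wd (sc 28 (num i) 0 0) := by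
  have h0 : (cdc E hG).run w y D i 0 = wd (2 * num i) := by
    show false :: i = _
    apply Pool.Agent.Helper78.Avg.num_injective
    have := num_pos i
    rw [num_wd (by omega)]
    show false.toNat + 2 * num i = _
    rw [Bool.toNat_false, zero_add]
  have hodd : num i % 2 = 1 := by
    rcases i with _ | ⟨b', u'⟩
    · rfl
    · cases b'
      · exact absurd rfl hi
      · show (true.toNat + 2 * num u') % 2 = 1
        rw [Bool.toNat_true]
        omega
  rw [run_step E hG w y D i (by omega) h0 (by omega)]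
  have h1 : nxS (2 * num i) = 0 := by
    unfold nxS
    rw [ifz_ne (by omega)]
  have h2 : ∀ a b c, nxH G (2 * num i) a b c = sc 28 (num i) 0 0 := by
    intro a b c
    unfold nxH
    rw [ifz_ne (by omega), show 2 * num i / 2 = num i by omega]
  rw [h1, if_pos rfl, h2, List.append_nil]
  congr 1

theorem ks_pos {q X : ℕ} (h : 0 < X) : 0 < ks q X := by
  unfold ks
  omega

theorem sc_pos (q i t a : ℕ) : 0 < sc q i t a := ks_pos (by omega)

theorem ks_even (q X : ℕ) : ks q X % 2 = 0 := by
  unfold ks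
  omega

theorem wd_pred {n : ℕ} (h : 0 < n) : wd (n - 1 + 1) = wd n := by
  rw [Nat.sub_add_cancel h]

theorem bits_wd (n : ℕ) : wd (bitsN n - 1 + 1) = n.bits := by
  rw [bitsN_eq, wd_pred (num_pos _), wd_num]

theorem rdA_28 (x t a : ℕ) : rdA E hG (sc 28 x t a) = 2 * t := by
  unfold rdA
  rw [cdc_addr, num_wd (sc_pos _ _ _ _), (adH_28 x t a).1, (adH_28 x t a).2, if_pos rfl,
    bits_wd, List.append_nil, bval_bits]

theorem rdA_29 (x t a : ℕ) : rdA E hG (sc 29 x t a) = 2 * t + 1 := by
  unfold rdA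
  rw [cdc_addr, num_wd (sc_pos _ _ _ _), (adH_29 x t a).1, (adH_29 x t a).2, if_pos rfl,
    bits_wd, List.append_nil, bval_bits]

theorem step_28 {t x p a : ℕ} (h : (cdc E hG).run w y D i t = wd (sc 28 x p a)) :
    (cdc E hG).run w y D i (t + 1) =
      wd (if codeO D[2 * p]? = 2 then sc 28 x (p + 1) 0 else sc 29 x p 0) := by
  rw [run_step E hG w y D i (sc_pos _ _ _ _) h (ks_even _ _), rdA_28, (nxH_28 x p a _ _ _).1,
    (nxH_28 (G := G) x p a 0 0 0).2, if_pos rfl, List.append_nil, wd_pred]
  split_ifs <;> exact sc_pos _ _ _ _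

theorem dec_pos (a x : ℕ) : 0 < dec G a x := by
  unfold dec ifz
  split_ifs
  · omega
  · exact ks_pos (by omega)

theorem step_29 {t x p a : ℕ} (h : (cdc E hG).run w y D i t = wd (sc 29 x p a)) :
    (cdc E hG).run w y D i (t + 1) =
      wd (if codeO D[2 * p + 1]? = 0 then dec G a x else
        sc 29 x (p + 1) (codeO D[2 * p + 1]? - 1 + 2 * a)) := by
  rw [run_step E hG w y D i (sc_pos _ _ _ _) h (ks_even _ _), rdA_29, (nxH_29 x p a _ _ _).1,
    (nxH_29 (G := G) x p a 0 0 0).2, if_pos rfl, List.append_nil, wd_pred]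
  split_ifs
  · exact dec_pos _ _
  · exact sc_pos _ _ _ _

theorem wd_two : wd 2 = [false] := wd_num [false]

theorem wd_three : wd 3 = [true] := wd_num [true]

theorem addr_0 {ε : List Bool} (hε : ε.head? ≠ some true) :
    (cdc E hG).addr (wd (ks 0 (num ε))) = E.addr ε := by
  have h1 : ¬(num ε % 2 = 1 ∧ 1 < num ε) := by
    rw [← head_wd (num_pos ε), wd_num]
    exact hε
  rw [cdc_addr, num_wd (ks_pos (num_pos _)), (adH_0 _).1, (adH_0 _).2, if_neg h1,
    if_neg one_ne_zero, xO_ks (by omega), wd_pred (num_pos _), wd_num]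
  show wd 1 ++ _ = _
  rw [wd_one, List.nil_append]

theorem addr_0' {ε : List Bool} (hε : ε.head? = some true) :
    (cdc E hG).addr (wd (ks 0 (num ε))) = [] := by
  have h1 : num ε % 2 = 1 ∧ 1 < num ε := by
    rw [← head_wd (num_pos ε), wd_num]
    exact hε
  rw [cdc_addr, num_wd (ks_pos (num_pos _)), (adH_0 _).1, (adH_0 _).2, if_pos h1, if_pos rfl]
  show wd 1 ++ _ = _
  rw [wd_one, List.nil_append]

theorem addr_1 {q : ℕ} (h1 : 1 ≤ q) (h2 : q < 10) (ε : List Bool) :
    (cdc E hG).addr (wd (ks q (num ε))) = false :: E.addr ε := by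
  rw [cdc_addr, num_wd (ks_pos (num_pos _)), (adH_1 h1 h2 _).1, (adH_1 h1 h2 _).2,
    if_neg one_ne_zero, xO_ks (by omega), wd_pred (num_pos _), wd_num]
  show wd 2 ++ _ = _
  rw [wd_two]
  rfl

theorem addr_2 {q : ℕ} (h1 : 10 ≤ q) (h2 : q < 28) (ε : List Bool) :
    (cdc E hG).addr (wd (ks q (num ε))) = true :: E.addr ε := by
  rw [cdc_addr, num_wd (ks_pos (num_pos _)), (adH_2 h1 h2 _).1, (adH_2 h1 h2 _).2,
    if_neg one_ne_zero, xO_ks (by omega), wd_pred (num_pos _), wd_num]
  show wd 3 ++ _ = _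
  rw [wd_three]
  rfl

/-- The simulation has ended. -/
theorem step_fin {t : ℕ} {ε : List Bool} (h : (cdc E hG).run w y D i t = wd (ks 0 (num ε)))
    (hε : ε.head? = some true) : (cdc E hG).run w y D i (t + 1) = ε := by
  have h1 : num ε % 2 = 1 ∧ 1 < num ε := by
    rw [← head_wd (num_pos ε), wd_num]
    exact hε
  rw [run_step E hG w y D i (ks_pos (num_pos _)) h (ks_even _ _),
    (nxH_0 (G := G) (X := num ε) _ _ _).1, (nxH_0 (G := G) (X := num ε) 0 0 0).2, if_pos rfl,
    List.append_nil, if_pos h1, wd_pred (num_pos _), wd_num]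

theorem wd_128 (v : List Bool) : wd 128 ++ v = wd (ks 0 (num v)) := by
  have h1 : wd 128 = List.replicate 7 false := by
    apply Pool.Agent.Helper78.Avg.num_injective
    rw [num_wd (by norm_num)]
    rfl
  apply Pool.Agent.Helper78.Avg.num_injective
  rw [h1, num_wd (ks_pos (num_pos _))]
  show false.toNat + 2 * (false.toNat + 2 * (false.toNat + 2 * (false.toNat + 2 *
    (false.toNat + 2 * (false.toNat + 2 * (false.toNat + 2 * num v)))))) = _
  unfold ks
  rw [Bool.toNat_false]
  ring

/-- One step of the simulation. -/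
theorem step_sim {t : ℕ} {ε d h : List Bool}
    (h0 : (cdc E hG).run w y (cod (prs d h)) i t = wd (ks 0 (num ε)))
    (hε : ε.head? ≠ some true) :
    ∃ q₁ q₂ : ℕ, 1 ≤ q₁ ∧ q₁ < 10 ∧ 10 ≤ q₂ ∧ q₂ < 28 ∧
      (cdc E hG).run w y (cod (prs d h)) i (t + 1) = wd (ks q₁ (num ε)) ∧
      (cdc E hG).run w y (cod (prs d h)) i (t + 2) = wd (ks q₂ (num ε)) ∧
      (cdc E hG).run w y (cod (prs d h)) i (t + 3) =
        wd (ks 0 (num (E.next (sd ε ++ (sd w[bval (E.addr ε)]?.toList ++
          (sd y[bval (E.addr ε)]?.toList ++ d[bval (E.addr ε)]?.toList)))))) := by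
  set j := bval (E.addr ε) with hj
  set a := w[j]? with ha
  set b := y[j]? with hb
  have ha2 := codeO_le a
  have hb2 := codeO_le b
  have h1 : ¬(num ε % 2 = 1 ∧ 1 < num ε) := by
    rw [← head_wd (num_pos ε), wd_num]
    exact hε
  set q₁ := 1 + 3 * codeO a + codeO b with hq₁
  have h2 : (cdc E hG).run w y (cod (prs d h)) i (t + 1) = wd (ks q₁ (num ε)) := by
    have h3 : rdA E hG (ks 0 (num ε)) = j := by
      unfold rdA
      rw [addr_0 E hG hε]
    rw [run_step E hG w y _ i (ks_pos (num_pos _)) h0 (ks_even _ _),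
      (nxH_0 (G := G) (X := num ε) _ _ _).1, (nxH_0 (G := G) (X := num ε) 0 0 0).2, if_pos rfl,
      List.append_nil, if_neg h1, wd_pred (ks_pos (num_pos _)), h3]
  have hq1 : 1 ≤ q₁ := by omega
  have hq10 : q₁ < 10 := by omega
  set q₂ := if j < d.length then q₁ + 18 else q₁ + 9 with hq₂
  have hq2 : 10 ≤ q₂ ∧ q₂ < 28 := by
    rw [hq₂]
    split_ifs <;> omega
  have h3 : (cdc E hG).run w y (cod (prs d h)) i (t + 2) = wd (ks q₂ (num ε)) := by
    have h4 : rdA E hG (ks q₁ (num ε)) = 2 * j := by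
      unfold rdA
      rw [addr_1 E hG hq1 hq10]
      show false.toNat + 2 * bval (E.addr ε) = _
      rw [Bool.toNat_false, zero_add]
    rw [show t + 2 = t + 1 + 1 by rfl,
      run_step E hG w y _ i (ks_pos (num_pos _)) h2 (ks_even _ _),
      (nxH_1 (G := G) hq1 hq10 _ _ _ _).1, (nxH_1 (G := G) hq1 hq10 (num ε) 0 0 0).2, if_pos rfl,
      List.append_nil, h4, cod_even]
    have h5 : codeO ((prs d h)[j]?.map Prod.fst) = 2 ↔ j < d.length := by
      constructor
      · intro h6
        by_contra h7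
        rw [prs_right d h (by omega)] at h6
        rcases h8 : h[j - d.length]? with _ | x
        · rw [h8] at h6
          exact absurd h6 (by simp [codeO])
        · rw [h8] at h6
          exact absurd h6 (by simp [codeO])
      · intro h6
        rw [prs_left h h6]
        rfl
    rw [hq₂]
    by_cases h6 : j < d.length
    · rw [if_pos (h5.2 h6), if_pos h6, wd_pred (ks_pos (num_pos _))]
    · rw [if_neg fun h7 => h6 (h5.1 h7), if_neg h6, wd_pred (ks_pos (num_pos _))]
  refine ⟨q₁, q₂, hq1, hq10, hq2.1, hq2.2, h2, h3, ?_⟩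
  have h4 : rdA E hG (ks q₂ (num ε)) = 2 * j + 1 := by
    unfold rdA
    rw [addr_2 E hG hq2.1 hq2.2]
    show true.toNat + 2 * bval (E.addr ε) = _
    rw [Bool.toNat_true]
    ring
  rw [show t + 3 = t + 2 + 1 by rfl,
    run_step E hG w y _ i (ks_pos (num_pos _)) h3 (ks_even _ _),
    (nxH_2 (G := G) hq2.1 hq2.2 _ _ _ _).1, (nxH_2 (G := G) hq2.1 hq2.2 (num ε) 0 0 0).2,
    if_neg one_ne_zero, h4, cod_odd]
  show wd 128 ++ _ = _
  rw [← wd_128]
  congr 2
  have h5 : nxA (ks q₂ (num ε)) (codeO ((prs d h)[j]?.map Prod.snd)) =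
      num (sd ε ++ (sd a.toList ++ (sd b.toList ++ d[j]?.toList))) := by
    unfold nxA
    rw [xO_ks (by omega), kO_ks (by omega)]
    have h6 : (q₂ - 10) % 9 = 3 * codeO a + codeO b := by
      rw [hq₂]
      split_ifs <;> omega
    rw [h6, show (3 * codeO a + codeO b) / 3 = codeO a by omega,
      show (3 * codeO a + codeO b) % 3 = codeO b by omega, ← num_toList, ← num_toList]
    have h7 : ifz ((q₂ - 10) / 9) 1 (codeO ((prs d h)[j]?.map Prod.snd) + 1) =
        num d[j]?.toList := by
      by_cases h8 : j < d.length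
      · have h9 : (q₂ - 10) / 9 ≠ 0 := by
          rw [hq₂, if_pos h8]
          omega
        rw [ifz_ne h9, prs_left h h8, List.getElem?_eq_getElem h8, num_toList]
        rfl
      · have h9 : (q₂ - 10) / 9 = 0 := by
          rw [hq₂, if_neg h8]
          omega
        rw [h9, ifz_zero, List.getElem?_eq_none (by omega)]
        rfl
    rw [h7, sdN_num, sdN_num, sdN_num, catN_num, catN_num, catN_num]
  rw [h5, wd_pred (num_pos _), wd_num]

/-- The scan of the description. -/
theorem scan1 (hi : i.head? ≠ some false) {d h : List Bool} {t : ℕ} (ht : t ≤ d.length) :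
    (cdc E hG).run w y (cod (prs d h)) i (1 + t) = wd (sc 28 (num i) t 0) := by
  induction t with
  | zero => exact step_start E hG w y _ i hi
  | succ t ih =>
    rw [← add_assoc, step_28 E hG w y _ i (ih (by omega)), cod_even, prs_left h (by omega)]
    rfl

/-- The scan of the header. -/
theorem scan2 (hi : i.head? ≠ some false) {d h : List Bool} {t : ℕ} (ht : t ≤ h.length) :
    (cdc E hG).run w y (cod (prs d h)) i (d.length + 2 + t) =
      wd (sc 29 (num i) (d.length + t) (vl (h.take t))) := by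
  induction t with
  | zero =>
    rw [show d.length + 2 + 0 = 1 + d.length + 1 by ring,
      step_28 E hG w y _ i (scan1 E hG w y i hi le_rfl), cod_even, prs_right d h le_rfl,
      if_neg]
    · rfl
    · rcases h[d.length - d.length]? with _ | x <;> simp [codeO]
  | succ t ih =>
    rw [← add_assoc, step_29 E hG w y _ i (ih (by omega)), cod_odd, prs_right d h (by omega),
      Nat.add_sub_cancel_left, List.getElem?_eq_getElem (by omega), if_neg]
    · have h1 : h.take (t + 1) = h.take t ++ [h[t]] := by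
        rw [List.take_add_one, List.getElem?_eq_getElem (by omega)]
        rfl
      rw [h1, vl_append, ← add_assoc]
      congr 2
      show 1 + h[t].toNat - 1 + _ = _
      omega
    · show ¬1 + h[t].toNat = 0
      omega

/-- The decision after the scan. -/
theorem scan3 (hi : i.head? ≠ some false) {d : List Bool} (n : ℕ) :
    (cdc E hG).run w y (cod (prs d n.bits.reverse)) i (d.length + n.bits.length + 3) =
      wd (dec G n (num i)) := by
  have h1 := scan2 E hG w y i hi (d := d) (h := n.bits.reverse) (t := n.bits.reverse.length) le_rfl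
  rw [List.take_length, vl_bits, List.length_reverse] at h1
  rw [show d.length + n.bits.length + 3 = d.length + 2 + n.bits.length + 1 by ring,
    step_29 E hG w y _ i h1, cod_odd, prs_right d _ (by omega), if_pos]
  rw [List.getElem?_eq_none (by rw [List.length_reverse]; omega)]
  rfl

/-- The simulation of the given decompressor. -/
theorem sim {d h : List Bool} {t₀ : ℕ} {j : List Bool}
    (h0 : (cdc E hG).run w y (cod (prs d h)) i t₀ = wd (ks 0 (num (false :: j)))) {t : ℕ}
    (ht : ∀ s < t, (E.run w y d j s).head? ≠ some true) :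
    (cdc E hG).run w y (cod (prs d h)) i (t₀ + 3 * t) = wd (ks 0 (num (E.run w y d j t))) := by
  induction t with
  | zero => exact h0
  | succ t ih =>
    obtain ⟨_, _, _, _, _, _, _, _, h1⟩ := step_sim E hG w y i (ih fun s hs => ht s (by omega))
      (ht t (by omega))
    rw [show t₀ + 3 * (t + 1) = t₀ + 3 * t + 3 by ring, h1]
    have h2 : E.run w y d j (t + 1) = if (E.run w y d j t).head? = some true then
      E.run w y d j t else E.next (sd (E.run w y d j t) ++
        (sd w[bval (E.addr (E.run w y d j t))]?.toList ++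
          (sd y[bval (E.addr (E.run w y d j t))]?.toList ++
            d[bval (E.addr (E.run w y d j t))]?.toList))) := rfl
    rw [h2, if_neg (ht t (by omega))]

end

end Pool.Agent.Helper31.Conv
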