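import Pool.Agent.Helper31.Conv.DecB
import Pool.Agent.Helper31.Conv.Final

/-!
# Registers which contain blocks of registers of a description: the computation
-/

namespace Pool.Agent.Helper31.Conv

open Pool.Agent.Helper65.LinSpace Pool.Agent.Helper78.Mpc Pool.Agent.Helper28.Ram
open Pool.Agent.Helper81.Sus2 (Decomp)
open Pool.Agent.Helper81.RP (wd num_wd wd_num length_wd head_wd wd_one lt01_of hd tl hd_eq tl_eq
  length_wd_le pair_lt wd_cons_true)
open Pool.Agent.Helper31.TMS (bval_bits)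

variable (P : Blk)

/-- The number of a state of the simulation. -/
noncomputable def sm (q c : ℕ) (ε : List Bool) : ℕ := ks q (num (sd (wd c) ++ ε))

theorem sm_pos (q c : ℕ) (ε : List Bool) : 0 < sm q c ε := ks_pos (num_pos _)

theorem xO_sm {q : ℕ} (hq : q < 32) (c : ℕ) (ε : List Bool) :
    xO (sm q c ε) = num (sd (wd c) ++ ε) := xO_ks hq _

theorem hd_sm {q : ℕ} (hq : q < 32) {c : ℕ} (hc : 0 < c) (ε : List Bool) :
    hd (xO (sm q c ε)) = c := by
  rw [xO_sm hq, hd_eq, num_wd hc]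

theorem tl_sm {q : ℕ} (hq : q < 32) (c : ℕ) (ε : List Bool) :
    tl (xO (sm q c ε)) = num ε := by
  rw [xO_sm hq, tl_eq]

theorem catN_sm {c : ℕ} (hc : 0 < c) (ε : List Bool) :
    catN (sdN c) (num ε) = num (sd (wd c) ++ ε) := by
  conv_lhs => rw [← num_wd hc]
  rw [sdN_num, catN_num]

theorem head_iff (ε : List Bool) : ε.head? = some true ↔ num ε % 2 = 1 ∧ 1 < num ε := by
  rw [← head_wd (num_pos ε), wd_num]

theorem nxS_sm0 (c : ℕ) (ε : List Bool) : nxS (sm 0 c ε) = 0 := (nxH_0 (G := fun _ _ => 0) 0 0 0).2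

theorem baH_0 (c : ℕ) (ε : List Bool) : baH P (sm 0 c ε) = 1 ∧
    baS (sm 0 c ε) = if ε.head? = some true then 0 else 1 := by
  have h := head_iff ε
  unfold baH baS
  rw [tl_sm (by omega)]
  have hm : sm 0 c ε % 4 = 0 := ks_mod _ _
  have hk : kO (sm 0 c ε) = 0 := kO_ks (by omega) _
  rw [hm, ifz_zero, ifz_zero, hk, ifz_zero, ifz_zero]
  refine ⟨rfl, ?_⟩
  by_cases h1 : num ε % 2 = 0
  · rw [h1, ifz_zero, if_neg fun h2 => by have := h.1 h2; omega]
  · rw [ifz_ne h1]
    by_cases h2 : num ε - 1 = 0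
    · rw [h2, ifz_zero, if_neg fun h3 => by have := h.1 h3; omega]
    · rw [ifz_ne h2, if_pos (h.2 (by omega))]

theorem baH_1 {q : ℕ} (h1 : 1 ≤ q) (h2 : q < 10) (c : ℕ) (ε : List Bool) :
    baH P (sm q c ε) = 2 ∧ baS (sm q c ε) = 1 := by
  unfold baH baS
  have hm : sm q c ε % 4 = 0 := ks_mod _ _
  have hk : kO (sm q c ε) = q := kO_ks (by omega) _
  rw [hm, ifz_zero, ifz_zero, hk, ifz_ne (by omega), lt01_of h2,
    ifz_ne one_ne_zero, ifz_ne (by omega), lt01_of (by omega)]
  exact ⟨rfl, rfl⟩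

theorem baH_2 {q : ℕ} (h1 : 10 ≤ q) (h2 : q < 28) (c : ℕ) (ε : List Bool) :
    baH P (sm q c ε) = 3 ∧ baS (sm q c ε) = 1 := by
  unfold baH baS
  have hm : sm q c ε % 4 = 0 := ks_mod _ _
  have hk : kO (sm q c ε) = q := kO_ks (by omega) _
  rw [hm, ifz_zero, ifz_zero, hk, ifz_ne (by omega), lt01_not (by omega),
    ifz_zero, lt01_of h2, ifz_ne one_ne_zero, ifz_ne (by omega)]
  exact ⟨rfl, rfl⟩

theorem baH_28 (i t a : ℕ) : baH P (sc 28 i t a) = bitsN (2 * t) ∧ baS (sc 28 i t a) = 0 := by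
  unfold baH baS
  rw [tO_sc (by omega)]
  have hm : sc 28 i t a % 4 = 0 := ks_mod _ _
  have hk : kO (sc 28 i t a) = 28 := kO_ks (by omega) _
  rw [hm, ifz_zero, ifz_zero, hk, ifz_ne (by omega), lt01_not (by omega),
    ifz_zero, lt01_not (by omega), ifz_zero, eq01_self, ifz_ne one_ne_zero, ifz_ne (by omega)]
  exact ⟨rfl, rfl⟩

theorem baH_29 (i t a : ℕ) : baH P (sc 29 i t a) = bitsN (2 * t + 1) ∧ baS (sc 29 i t a) = 0 := by
  unfold baH baS
  rw [tO_sc (by omega)]
  have hm : sc 29 i t a % 4 = 0 := ks_mod _ _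
  have hk : kO (sc 29 i t a) = 29 := kO_ks (by omega) _
  rw [hm, ifz_zero, ifz_zero, hk, ifz_ne (by omega), lt01_not (by omega),
    ifz_zero, lt01_not (by omega), ifz_zero, eq01_not (by omega), ifz_zero, eq01_self,
    ifz_ne one_ne_zero, ifz_ne (by omega)]
  exact ⟨rfl, rfl⟩

theorem baH_30 (c : ℕ) : baH P (ks 30 c) = bitsN (gO P c / 4) ∧ baS (ks 30 c) = 0 := by
  unfold baH baS
  rw [ks_mod, ifz_zero, ifz_zero, kO_ks (by omega), ifz_ne (by omega), lt01_not (by omega),
    ifz_zero, lt01_not (by omega), ifz_zero, eq01_not (by omega), ifz_zero, eq01_not (by omega),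
    ifz_zero, ifz_ne (by omega), xO_ks (by omega)]
  exact ⟨rfl, rfl⟩

theorem bnH_0 {c : ℕ} (hc : 0 < c) (ε : List Bool) (lw ly lz : ℕ) :
    bnH P (sm 0 c ε) lw ly lz = if ε.head? = some true then put P c (num ε / 4 - 1) else
      sm (1 + 3 * lw + ly) c ε := by
  have h := head_iff ε
  unfold bnH
  rw [tl_sm (by omega), hd_sm (by omega) hc, xO_sm (by omega)]
  have hm : sm 0 c ε % 4 = 0 := ks_mod _ _
  have hk : kO (sm 0 c ε) = 0 := kO_ks (by omega) _
  rw [hm, ifz_zero, hk, ifz_zero]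
  by_cases h1 : num ε % 2 = 0
  · rw [h1, ifz_zero, if_neg fun h2 => by have := h.1 h2; omega]
    rfl
  · rw [ifz_ne h1]
    by_cases h2 : num ε - 1 = 0
    · rw [h2, ifz_zero, if_neg fun h3 => by have := h.1 h3; omega]
      rfl
    · rw [ifz_ne h2, if_pos (h.2 (by omega))]

theorem bnH_1 {q : ℕ} (h1 : 1 ≤ q) (h2 : q < 10) (c : ℕ) (ε : List Bool) (lw ly lz : ℕ) :
    bnH P (sm q c ε) lw ly lz = (if lz = 2 then sm (q + 18) c ε else sm (q + 9) c ε) ∧
      nxS (sm q c ε) = 0 := by
  refine ⟨?_, (nxH_1 (G := fun _ _ => 0) h1 h2 _ 0 0 0).2⟩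
  unfold bnH
  have hm : sm q c ε % 4 = 0 := ks_mod _ _
  have hk : kO (sm q c ε) = q := kO_ks (by omega) _
  rw [hm, ifz_zero, hk, ifz_ne (by omega), xO_sm (by omega), lt01_of h2, ifz_ne one_ne_zero]
  by_cases h3 : lz = 2
  · rw [if_pos h3, h3, eq01_self, ifz_ne one_ne_zero]
    rfl
  · rw [if_neg h3, eq01_not h3, ifz_zero]
    rfl

theorem bnH_2 {q : ℕ} (h1 : 10 ≤ q) (h2 : q < 28) {c : ℕ} (hc : 0 < c) (ε : List Bool)
    (lw ly lz : ℕ) :
    bnH P (sm q c ε) lw ly lz = num (List.replicate 7 false ++ sd (wd c)) ∧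
      nxS (sm q c ε) = 1 := by
  refine ⟨?_, (nxH_2 (G := fun _ _ => 0) h1 h2 _ 0 0 0).2⟩
  unfold bnH
  rw [hd_sm (by omega) hc]
  have hm : sm q c ε % 4 = 0 := ks_mod _ _
  have hk : kO (sm q c ε) = q := kO_ks (by omega) _
  rw [hm, ifz_zero, hk, ifz_ne (by omega), lt01_not (by omega), ifz_zero, lt01_of h2,
    ifz_ne one_ne_zero, ← catN_num]
  congr 1
  rw [← sdN_num, num_wd hc]

theorem bnH_28 (i t a lw ly lz : ℕ) :
    bnH P (sc 28 i t a) lw ly lz = (if lz = 2 then sc 28 i (t + 1) 0 else sc 29 i t 0) ∧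
      nxS (sc 28 i t a) = 0 := by
  refine ⟨?_, (nxH_28 (G := fun _ _ => 0) i t a 0 0 0).2⟩
  unfold bnH
  rw [tO_sc (by omega), iO_sc (by omega)]
  have hm : sc 28 i t a % 4 = 0 := ks_mod _ _
  have hk : kO (sc 28 i t a) = 28 := kO_ks (by omega) _
  rw [hm, ifz_zero, hk, ifz_ne (by omega), lt01_not (by omega), ifz_zero,
    lt01_not (by omega), ifz_zero, eq01_self, ifz_ne one_ne_zero]
  by_cases h3 : lz = 2
  · rw [if_pos h3, h3, eq01_self, ifz_ne one_ne_zero]
  · rw [if_neg h3, eq01_not h3, ifz_zero]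

theorem bnH_29 (i t a lw ly lz : ℕ) :
    bnH P (sc 29 i t a) lw ly lz =
      (if lz = 0 then ks 30 (ctx a i (P.N a i) 0) else sc 29 i (t + 1) (lz - 1 + 2 * a)) ∧
      nxS (sc 29 i t a) = 0 := by
  refine ⟨?_, (nxH_29 (G := fun _ _ => 0) i t a 0 0 0).2⟩
  unfold bnH
  rw [tO_sc (by omega), iO_sc (by omega), aO_sc (by omega)]
  have hm : sc 29 i t a % 4 = 0 := ks_mod _ _
  have hk : kO (sc 29 i t a) = 29 := kO_ks (by omega) _
  rw [hm, ifz_zero, hk, ifz_ne (by omega), lt01_not (by omega), ifz_zero,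
    lt01_not (by omega), ifz_zero, eq01_not (by omega), ifz_zero, eq01_self, ifz_ne one_ne_zero]
  unfold ifz
  rfl

theorem bnH_30 (c lw ly lz : ℕ) :
    bnH P (ks 30 c) lw ly lz = lpH P c lw ly ∧ nxS (ks 30 c) = 0 := by
  unfold bnH nxS
  rw [ks_mod, ifz_zero, ifz_zero, kO_ks (by omega), ifz_ne (by omega), lt01_not (by omega),
    ifz_zero, lt01_not (by omega), ifz_zero, eq01_not (by omega), ifz_zero, eq01_not (by omega),
    ifz_zero, xO_ks (by omega)]
  exact ⟨rfl, rfl⟩

/-! ### Steps -/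

section

variable (E : Decomp) (w y D i : List Bool)

/-- The number of the letter which is read in the state with the number `n`. -/
noncomputable def rdB (n : ℕ) : ℕ := bval ((bdc P E).addr (wd n))

theorem runB_step {t n : ℕ} (hn : 0 < n) (h : (bdc P E).run w y D i t = wd n)
    (h2 : n % 2 = 0) :
    (bdc P E).run w y D i (t + 1) =
      wd (bnH P n (codeO w[rdB P E n]?) (codeO y[rdB P E n]?) (codeO D[rdB P E n]?) - 1 + 1) ++
        if nxS n = 0 then [] else E.next (wd (bnA n (codeO D[rdB P E n]?) - 1 + 1)) := by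
  have h1 : (bdc P E).run w y D i (t + 1) = if ((bdc P E).run w y D i t).head? = some true then
      (bdc P E).run w y D i t else (bdc P E).next (sd ((bdc P E).run w y D i t) ++
        (sd w[bval ((bdc P E).addr ((bdc P E).run w y D i t))]?.toList ++
          (sd y[bval ((bdc P E).addr ((bdc P E).run w y D i t))]?.toList ++
            D[bval ((bdc P E).addr ((bdc P E).run w y D i t))]?.toList))) := rfl
  have h3 : (wd n).head? ≠ some true := fun h4 => by
    have := (head_wd hn).1 h4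
    omega
  rw [h1, h, if_neg h3, bdc_next, num_wd hn]
  rfl

theorem stepB_start (hi : i.head? ≠ some false) :
    (bdc P E).run w y D i 1 = wd (sc 28 (num i) 0 0) := by
  have h0 : (bdc P E).run w y D i 0 = wd (2 * num i) := by
    show false :: i = _
    apply Pool.Agent.Helper78.Avg.num_injective
    have := num_pos i
    rw [num_wd (by omega)]
    show false.toNat + 2 * num i = _
    rw [Bool.toNat_false, zero_add]
  have hodd : num i % 2 = 1 := by
    rcases i with _ | ⟨b', u'⟩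
    · rfl
    · cases b'
      · exact absurd rfl hi
      · show (true.toNat + 2 * num u') % 2 = 1
        rw [Bool.toNat_true]
        omega
  rw [runB_step P E w y D i (by omega) h0 (by omega)]
  have h1 : nxS (2 * num i) = 0 := by
    unfold nxS
    rw [ifz_ne (by omega)]
  have h2 : ∀ a b c, bnH P (2 * num i) a b c = sc 28 (num i) 0 0 := by
    intro a b c
    unfold bnH
    rw [ifz_ne (by omega), show 2 * num i / 2 = num i by omega]
  rw [h1, if_pos rfl, h2, List.append_nil]
  congr 1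

theorem addrB_28 (x t a : ℕ) : (bdc P E).addr (wd (sc 28 x t a)) = (2 * t).bits := by
  rw [bdc_addr, num_wd (sc_pos _ _ _ _), (baH_28 P x t a).1, (baH_28 P x t a).2, if_pos rfl,
    bits_wd, List.append_nil]

theorem addrB_29 (x t a : ℕ) : (bdc P E).addr (wd (sc 29 x t a)) = (2 * t + 1).bits := by
  rw [bdc_addr, num_wd (sc_pos _ _ _ _), (baH_29 P x t a).1, (baH_29 P x t a).2, if_pos rfl,
    bits_wd, List.append_nil]

theorem addrB_30 {c : ℕ} (hc : 0 < c) :
    (bdc P E).addr (wd (ks 30 c)) = (gO P c / 4).bits := by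
  rw [bdc_addr, num_wd (ks_pos hc), (baH_30 P c).1, (baH_30 P c).2, if_pos rfl,
    bits_wd, List.append_nil]

theorem addrB_0 (c : ℕ) {ε : List Bool} (hε : ε.head? ≠ some true) :
    (bdc P E).addr (wd (sm 0 c ε)) = E.addr ε := by
  rw [bdc_addr, num_wd (sm_pos _ _ _), (baH_0 P c ε).1, (baH_0 P c ε).2, if_neg hε,
    if_neg one_ne_zero, tl_sm (by omega), wd_pred (num_pos _), wd_num]
  show wd 1 ++ _ = _
  rw [wd_one, List.nil_append]

theorem addrB_0' (c : ℕ) {ε : List Bool} (hε : ε.head? = some true) :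
    (bdc P E).addr (wd (sm 0 c ε)) = [] := by
  rw [bdc_addr, num_wd (sm_pos _ _ _), (baH_0 P c ε).1, (baH_0 P c ε).2, if_pos hε, if_pos rfl]
  show wd 1 ++ _ = _
  rw [wd_one, List.nil_append]

theorem addrB_1 {q : ℕ} (h1 : 1 ≤ q) (h2 : q < 10) (c : ℕ) (ε : List Bool) :
    (bdc P E).addr (wd (sm q c ε)) = false :: E.addr ε := by
  rw [bdc_addr, num_wd (sm_pos _ _ _), (baH_1 P h1 h2 c ε).1, (baH_1 P h1 h2 c ε).2,
    if_neg one_ne_zero, tl_sm (by omega), wd_pred (num_pos _), wd_num]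
  show wd 2 ++ _ = _
  rw [wd_two]
  rfl

theorem addrB_2 {q : ℕ} (h1 : 10 ≤ q) (h2 : q < 28) (c : ℕ) (ε : List Bool) :
    (bdc P E).addr (wd (sm q c ε)) = true :: E.addr ε := by
  rw [bdc_addr, num_wd (sm_pos _ _ _), (baH_2 P h1 h2 c ε).1, (baH_2 P h1 h2 c ε).2,
    if_neg one_ne_zero, tl_sm (by omega), wd_pred (num_pos _), wd_num]
  show wd 3 ++ _ = _
  rw [wd_three]
  rfl

theorem rdB_28 (x t a : ℕ) : rdB P E (sc 28 x t a) = 2 * t := by
  unfold rdB
  rw [addrB_28, bval_bits]

theorem rdB_29 (x t a : ℕ) : rdB P E (sc 29 x t a) = 2 * t + 1 := by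
  unfold rdB
  rw [addrB_29, bval_bits]

theorem rdB_30 {c : ℕ} (hc : 0 < c) : rdB P E (ks 30 c) = gO P c / 4 := by
  unfold rdB
  rw [addrB_30 P E hc, bval_bits]

theorem stepB_28 {t x p a : ℕ} (h : (bdc P E).run w y D i t = wd (sc 28 x p a)) :
    (bdc P E).run w y D i (t + 1) =
      wd (if codeO D[2 * p]? = 2 then sc 28 x (p + 1) 0 else sc 29 x p 0) := by
  rw [runB_step P E w y D i (sc_pos _ _ _ _) h (ks_even _ _), rdB_28, (bnH_28 P x p a _ _ _).1,
    (bnH_28 P x p a 0 0 0).2, if_pos rfl, List.append_nil, wd_pred]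
  split_ifs <;> exact sc_pos _ _ _ _

theorem stepB_29 {t x p a : ℕ} (h : (bdc P E).run w y D i t = wd (sc 29 x p a)) :
    (bdc P E).run w y D i (t + 1) =
      wd (if codeO D[2 * p + 1]? = 0 then ks 30 (ctx a x (P.N a x) 0) else
        sc 29 x (p + 1) (codeO D[2 * p + 1]? - 1 + 2 * a)) := by
  rw [runB_step P E w y D i (sc_pos _ _ _ _) h (ks_even _ _), rdB_29, (bnH_29 P x p a _ _ _).1,
    (bnH_29 P x p a 0 0 0).2, if_pos rfl, List.append_nil, wd_pred]
  split_ifs
  · exact ks_pos (ctx_pos _ _ _ _)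
  · exact sc_pos _ _ _ _

/-- The scan of the description. -/
theorem scanB1 (hi : i.head? ≠ some false) {d h : List Bool} {t : ℕ} (ht : t ≤ d.length) :
    (bdc P E).run w y (cod (prs d h)) i (1 + t) = wd (sc 28 (num i) t 0) := by
  induction t with
  | zero => exact stepB_start P E w y _ i hi
  | succ t ih =>
    rw [← add_assoc, stepB_28 P E w y _ i (ih (by omega)), cod_even, prs_left h (by omega)]
    rfl

/-- The scan of the header. -/
theorem scanB2 (hi : i.head? ≠ some false) {d h : List Bool} {t : ℕ} (ht : t ≤ h.length) :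
    (bdc P E).run w y (cod (prs d h)) i (d.length + 2 + t) =
      wd (sc 29 (num i) (d.length + t) (vl (h.take t))) := by
  induction t with
  | zero =>
    rw [show d.length + 2 + 0 = 1 + d.length + 1 by ring,
      stepB_28 P E w y _ i (scanB1 P E w y i hi le_rfl), cod_even, prs_right d h le_rfl,
      if_neg]
    · rfl
    · rcases h[d.length - d.length]? with _ | x <;> simp [codeO]
  | succ t ih =>
    rw [← add_assoc, stepB_29 P E w y _ i (ih (by omega)), cod_odd, prs_right d h (by omega),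
      Nat.add_sub_cancel_left, List.getElem?_eq_getElem (by omega), if_neg]
    · have h1 : h.take (t + 1) = h.take t ++ [h[t]] := by
        rw [List.take_add_one, List.getElem?_eq_getElem (by omega)]
        rfl
      rw [h1, vl_append, ← add_assoc]
      congr 2
      show 1 + h[t].toNat - 1 + _ = _
      omega
    · show ¬1 + h[t].toNat = 0
      omega

/-- After the scan. -/
theorem scanB3 (hi : i.head? ≠ some false) {d : List Bool} (n : ℕ) :
    (bdc P E).run w y (cod (prs d n.bits.reverse)) i (d.length + n.bits.length + 3) =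
      wd (ks 30 (ctx n (num i) (P.N n (num i)) 0)) := by
  have h1 := scanB2 P E w y i hi (d := d) (h := n.bits.reverse) (t := n.bits.reverse.length) le_rfl
  rw [List.take_length, vl_bits, List.length_reverse] at h1
  rw [show d.length + n.bits.length + 3 = d.length + 2 + n.bits.length + 1 by ring,
    stepB_29 P E w y _ i h1, cod_odd, prs_right d _ (by omega), if_pos]
  rw [List.getElem?_eq_none (by rw [List.length_reverse]; omega)]
  rfl

/-- The step in the state of the loop. -/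
theorem stepB_30 {t c : ℕ} (hc : 0 < c) (h : (bdc P E).run w y D i t = wd (ks 30 c)) :
    (bdc P E).run w y D i (t + 1) =
      wd (lpH P c (codeO w[gO P c / 4]?) (codeO y[gO P c / 4]?)) := by
  rw [runB_step P E w y D i (ks_pos hc) h (ks_even _ _), rdB_30 P E hc, (bnH_30 P c _ _ _).1,
    (bnH_30 P c 0 0 0).2, if_pos rfl, List.append_nil, wd_pred]
  unfold lpH put ifz
  split_ifs
  · omega
  · exact ks_pos (ctx_pos _ _ _ _)
  · refine ks_pos ?_
    have h1 : 2 * (gO P c / 4 - 1 + 1) = num (wd (2 * (gO P c / 4 - 1 + 1))) :=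
      (num_wd (by omega)).symm
    rw [h1, catN_sm hc]
    exact num_pos _
  · exact ks_pos (ctx_pos _ _ _ _)
  · exact ks_pos (ctx_pos _ _ _ _)

/-- One step of the simulation. -/
theorem stepB_sim {t c : ℕ} {ε d h : List Bool} (hc : 0 < c)
    (h0 : (bdc P E).run w y (cod (prs d h)) i t = wd (sm 0 c ε))
    (hε : ε.head? ≠ some true) :
    ∃ q₁ q₂ : ℕ, 1 ≤ q₁ ∧ q₁ < 10 ∧ 10 ≤ q₂ ∧ q₂ < 28 ∧
      (bdc P E).run w y (cod (prs d h)) i (t + 1) = wd (sm q₁ c ε) ∧
      (bdc P E).run w y (cod (prs d h)) i (t + 2) = wd (sm q₂ c ε) ∧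
      (bdc P E).run w y (cod (prs d h)) i (t + 3) =
        wd (sm 0 c (E.next (sd ε ++ (sd w[bval (E.addr ε)]?.toList ++
          (sd y[bval (E.addr ε)]?.toList ++ d[bval (E.addr ε)]?.toList))))) := by
  set j := bval (E.addr ε) with hj
  set a := w[j]? with ha
  set b := y[j]? with hb
  have ha2 := codeO_le a
  have hb2 := codeO_le b
  set q₁ := 1 + 3 * codeO a + codeO b with hq₁
  have h2 : (bdc P E).run w y (cod (prs d h)) i (t + 1) = wd (sm q₁ c ε) := by
    have h3 : rdB P E (sm 0 c ε) = j := by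
      unfold rdB
      rw [addrB_0 P E c hε]
    rw [runB_step P E w y _ i (sm_pos _ _ _) h0 (ks_even _ _), bnH_0 P hc, nxS_sm0,
      if_pos rfl, List.append_nil, if_neg hε, wd_pred (sm_pos _ _ _), h3]
  have hq1 : 1 ≤ q₁ := by omega
  have hq10 : q₁ < 10 := by omega
  set q₂ := if j < d.length then q₁ + 18 else q₁ + 9 with hq₂
  have hq2 : 10 ≤ q₂ ∧ q₂ < 28 := by
    rw [hq₂]
    split_ifs <;> omega
  have h3 : (bdc P E).run w y (cod (prs d h)) i (t + 2) = wd (sm q₂ c ε) := by
    have h4 : rdB P E (sm q₁ c ε) = 2 * j := by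
      unfold rdB
      rw [addrB_1 P E hq1 hq10]
      show false.toNat + 2 * bval (E.addr ε) = _
      rw [Bool.toNat_false, zero_add]
    rw [show t + 2 = t + 1 + 1 by rfl,
      runB_step P E w y _ i (sm_pos _ _ _) h2 (ks_even _ _),
      (bnH_1 P hq1 hq10 c ε _ _ _).1, (bnH_1 P hq1 hq10 c ε 0 0 0).2, if_pos rfl,
      List.append_nil, h4, cod_even]
    have h5 : codeO ((prs d h)[j]?.map Prod.fst) = 2 ↔ j < d.length := by
      constructor
      · intro h6
        by_contra h7
        rw [prs_right d h (by omega)] at h6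
        rcases h8 : h[j - d.length]? with _ | x
        · rw [h8] at h6
          exact absurd h6 (by simp [codeO])
        · rw [h8] at h6
          exact absurd h6 (by simp [codeO])
      · intro h6
        rw [prs_left h h6]
        rfl
    rw [hq₂]
    by_cases h6 : j < d.length
    · rw [if_pos (h5.2 h6), if_pos h6, wd_pred (sm_pos _ _ _)]
    · rw [if_neg fun h7 => h6 (h5.1 h7), if_neg h6, wd_pred (sm_pos _ _ _)]
  refine ⟨q₁, q₂, hq1, hq10, hq2.1, hq2.2, h2, h3, ?_⟩
  have h4 : rdB P E (sm q₂ c ε) = 2 * j + 1 := by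
    unfold rdB
    rw [addrB_2 P E hq2.1 hq2.2]
    show true.toNat + 2 * bval (E.addr ε) = _
    rw [Bool.toNat_true]
    ring
  rw [show t + 3 = t + 2 + 1 by rfl,
    runB_step P E w y _ i (sm_pos _ _ _) h3 (ks_even _ _),
    (bnH_2 P hq2.1 hq2.2 hc ε _ _ _).1, (bnH_2 P hq2.1 hq2.2 hc ε 0 0 0).2,
    if_neg one_ne_zero, h4, cod_odd]
  have h5 : bnA (sm q₂ c ε) (codeO ((prs d h)[j]?.map Prod.snd)) =
      num (sd ε ++ (sd a.toList ++ (sd b.toList ++ d[j]?.toList))) := by
    unfold bnA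
    have hk : kO (sm q₂ c ε) = q₂ := kO_ks (by omega) _
    rw [tl_sm (by omega), hk]
    have h6 : (q₂ - 10) % 9 = 3 * codeO a + codeO b := by
      rw [hq₂]
      split_ifs <;> omega
    rw [h6, show (3 * codeO a + codeO b) / 3 = codeO a by omega,
      show (3 * codeO a + codeO b) % 3 = codeO b by omega, ← num_toList, ← num_toList]
    have h7 : ifz ((q₂ - 10) / 9) 1 (codeO ((prs d h)[j]?.map Prod.snd) + 1) =
        num d[j]?.toList := by
      by_cases h8 : j < d.length
      · have h9 : (q₂ - 10) / 9 ≠ 0 := by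
          rw [hq₂, if_pos h8]
          omega
        rw [ifz_ne h9, prs_left h h8, List.getElem?_eq_getElem h8, num_toList]
        rfl
      · have h9 : (q₂ - 10) / 9 = 0 := by
          rw [hq₂, if_neg h8]
          omega
        rw [h9, ifz_zero, List.getElem?_eq_none (by omega)]
        rfl
    rw [h7, sdN_num, sdN_num, sdN_num, catN_num, catN_num, catN_num]
  rw [h5, wd_pred (num_pos _), wd_num, wd_pred (num_pos _), wd_num]
  unfold sm
  rw [← wd_128]
  have h1 : wd 128 = List.replicate 7 false := by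
    apply Pool.Agent.Helper78.Avg.num_injective
    rw [num_wd (by norm_num)]
    rfl
  rw [h1, List.append_assoc]

/-- The simulation of the given decompressor. -/
theorem simB {d h : List Bool} {t₀ c : ℕ} {j : List Bool} (hc : 0 < c)
    (h0 : (bdc P E).run w y (cod (prs d h)) i t₀ = wd (sm 0 c (false :: j))) {t : ℕ}
    (ht : ∀ s < t, (E.run w y d j s).head? ≠ some true) :
    (bdc P E).run w y (cod (prs d h)) i (t₀ + 3 * t) = wd (sm 0 c (E.run w y d j t)) := by
  induction t with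
  | zero => exact h0
  | succ t ih =>
    obtain ⟨_, _, _, _, _, _, _, _, h1⟩ := stepB_sim P E w y i hc (ih fun s hs => ht s (by omega))
      (ht t (by omega))
    rw [show t₀ + 3 * (t + 1) = t₀ + 3 * t + 3 by ring, h1]
    have h2 : E.run w y d j (t + 1) = if (E.run w y d j t).head? = some true then
      E.run w y d j t else E.next (sd (E.run w y d j t) ++
        (sd w[bval (E.addr (E.run w y d j t))]?.toList ++
          (sd y[bval (E.addr (E.run w y d j t))]?.toList ++
            d[bval (E.addr (E.run w y d j t))]?.toList))) := rfl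
    rw [h2, if_neg (ht t (by omega))]

/-- The simulation has ended. -/
theorem stepB_fin {t c : ℕ} {v : List Bool} (hc : 0 < c)
    (h : (bdc P E).run w y D i t = wd (sm 0 c (true :: true :: v))) :
    (bdc P E).run w y D i (t + 1) = wd (put P c (num v - 1)) := by
  have h2 : (true :: true :: v).head? = some true := rfl
  rw [runB_step P E w y D i (sm_pos _ _ _) h (ks_even _ _), bnH_0 P hc, nxS_sm0,
    if_pos rfl, List.append_nil, if_pos h2]
  have h1 : num (true :: true :: v) / 4 - 1 = num v - 1 := by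
    show (true.toNat + 2 * (true.toNat + 2 * num v)) / 4 - 1 = _
    rw [Bool.toNat_true]
    omega
  rw [h1, wd_pred]
  exact ks_pos (ctx_pos _ _ _ _)

end

end Pool.Agent.Helper31.Conv
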